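import Pool.Agent.Lib.MP_69a698_al.Ring

/-! # The glued rings are complete and Noetherian -/

open MvPowerSeries Finset IsLocalRing

namespace Pool.Agent.Lib.MP_69a698_al

variable {k : Type} [Field k] [Algebra k ℂ] {ι : Type} {D : Dat k ι}

theorem Dat.c_le_map [IsLocalRing D.A] (j : ι) : D.c j ≤ (maximalIdeal D.A).map (D.pr j) := by
  classical
  intro x hx
  have hmem : (Pi.single j x : ι → S) ∈ D.A := Dat.mem_of_c (fun i => by
    by_cases h : i = j
    · subst h; simpa using hx
    · simp [Pi.single_eq_of_ne h])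
  have h1 : (⟨Pi.single j x, hmem⟩ : D.A) ∈ maximalIdeal D.A := by
    rw [Dat.mem_maximalIdeal j]
    simpa using constantCoeff_of_mem (D.hc1 j hx)
  have h2 := Ideal.mem_map_of_mem (D.pr j) h1
  simpa [Dat.pr_apply] using h2

theorem Dat.mem_pow_of [Fintype ι] [IsLocalRing D.A] {n : ℕ} {f : D.A}
    (hf : ∀ j, f.1 j ∈ mS ℂ ^ (4 * (n + 1))) : f ∈ maximalIdeal D.A ^ n := by
  apply Dat.mem_of_mul
  intro j
  have h1 := hf j
  rw [pow_mul, pow_succ] at h1
  refine Ideal.mul_mono ?_ (D.hc4 j) h1
  rw [Ideal.map_pow]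
  exact Ideal.pow_right_mono ((D.hc4 j).trans (Dat.c_le_map j)) n

theorem smodEq_iff {R : Type*} [CommRing R] (I : Ideal R) (n : ℕ) (x y : R) :
    x ≡ y [SMOD (I ^ n • ⊤ : Submodule R R)] ↔ x - y ∈ I ^ n := by
  rw [SModEq.sub_mem, smul_eq_mul, Ideal.mul_top]

theorem Dat.isAdicComplete [Fintype ι] [IsLocalRing D.A] :
    IsAdicComplete (maximalIdeal D.A) D.A := by
  have hH : IsHausdorff (maximalIdeal D.A) D.A := by
    constructor
    intro x hx
    have h1 : ∀ n, x ∈ maximalIdeal D.A ^ n := by
      intro n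
      have := (smodEq_iff _ n x 0).mp (hx n)
      simpa using this
    apply Subtype.ext
    funext j
    ext a
    have h2 := Dat.pow_mem (h1 (deg a + 1)) j
    rw [mS_pow_eq] at h2
    rw [h2 a (by simp [wdeg, deg])]
    simp
  have hP : IsPrecomplete (maximalIdeal D.A) D.A := by
    constructor
    intro f hf
    have hf' : ∀ m n, m ≤ n → ∀ j, (f m).1 j - (f n).1 j ∈ (V w1 m : Ideal S) := by
      intro m n hmn j
      have h1 := (smodEq_iff _ m (f m) (f n)).mp (hf hmn)
      have h2 := Dat.pow_mem h1 j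
      rw [mS_pow_eq] at h2
      exact h2
    let L : ι → S := fun j => fun a => coeff a ((f (deg a + 1)).1 j)
    have hL : ∀ j a, coeff a (L j) = coeff a ((f (deg a + 1)).1 j) := fun j a => rfl
    have hfL : ∀ n j, (f n).1 j - L j ∈ (V w1 n : Ideal S) := by
      intro n j a ha
      have h1 : deg a < n := by simpa [wdeg, deg] using ha
      have h2 := hf' (deg a + 1) n h1 j a (by simp [wdeg, deg])
      rw [map_sub] at h2 ⊢
      rw [hL, sub_eq_zero.mp h2, sub_self]
    have hmem : (fun j => (f 4).1 j - L j) ∈ D.A := by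
      apply Dat.mem_of_c
      intro j
      apply D.hc4 j
      rw [mS_pow_eq]
      exact hfL 4 j
    have hLA : L ∈ D.A := by
      have h1 := sub_mem (f 4).2 hmem
      convert h1 using 1
      funext j
      simp
    refine ⟨⟨L, hLA⟩, fun n => ?_⟩
    rw [smodEq_iff]
    have h1 : f n - ⟨L, hLA⟩ = (f n - f (4 * (n + 1))) + (f (4 * (n + 1)) - ⟨L, hLA⟩) := by ring
    rw [h1]
    apply add_mem
    · exact (smodEq_iff _ n _ _).mp (hf (by omega))
    · apply Dat.mem_pow_of
      intro j
      rw [mS_pow_eq]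
      exact hfL (4 * (n + 1)) j
  exact { hH, hP with }

/-! ## Noetherian -/

theorem finite_of_family {A B : Type} [CommRing A] [CommRing B] (f : A →+* B) {F : Type}
    [Fintype F] (b : F → B) (h : ∀ x : B, ∃ g : F → A, x = ∑ i, f (g i) * b i) : f.Finite := by
  let _ : Algebra A B := f.toAlgebra
  refine ⟨⟨(Set.finite_range b).toFinset, ?_⟩⟩
  rw [eq_top_iff]
  intro x _
  obtain ⟨g, hg⟩ := h x
  rw [hg]
  refine Submodule.sum_mem _ (fun i _ => ?_)
  have : f (g i) * b i = g i • b i := by
    rw [Algebra.smul_def]; rfl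
  rw [this]
  apply Submodule.smul_mem
  apply Submodule.subset_span
  simp

theorem expand_finite :
    (expand (σ := Fin 3) (R := ℂ) 4 (by norm_num) : S →+* S).Finite := by
  classical
  let r : (Fin 3 → Fin 4) → (Fin 3 →₀ ℕ) := fun s =>
    Finsupp.equivFunOnFinite.symm (fun i => (s i : ℕ))
  apply finite_of_family _ (F := Fin 3 → Fin 4) (fun s => monomial (r s) (1 : ℂ))
  intro x
  refine ⟨fun s => fun m => coeff (r s + 4 • m) x, ?_⟩
  ext a
  let s0 : Fin 3 → Fin 4 := fun i => ⟨a i % 4, Nat.mod_lt _ (by norm_num)⟩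
  let m0 : Fin 3 →₀ ℕ := Finsupp.equivFunOnFinite.symm (fun i => a i / 4)
  have ha : a = 4 • m0 + r s0 := by
    ext i
    simp [r, m0, s0, Nat.div_add_mod]
  rw [map_sum, Finset.sum_eq_single s0]
  · conv_rhs => rw [ha]
    rw [coeff_add_mul_monomial, mul_one]
    have h1 := coeff_expand_smul 4 (by norm_num)
      (fun m => coeff (r s0 + 4 • m) x : MvPowerSeries (Fin 3) ℂ) m0
    rw [RingHom.coe_coe, h1]
    show coeff a x = coeff (r s0 + 4 • m0) x
    rw [add_comm, ← ha]
  · intro s _ hs
    rw [coeff_mul_monomial]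
    split_ifs with hle
    · rw [mul_one]
      have : ∃ i, s i ≠ s0 i := by
        by_contra h
        push Not at h
        exact hs (funext h)
      obtain ⟨i, hi⟩ := this
      refine coeff_expand_of_not_dvd 4 (by norm_num) _ (i := i) ?_
      intro hdvd
      apply hi
      have h1 : (s i : ℕ) ≤ a i := hle i
      have h2 : 4 ∣ a i - (s i : ℕ) := by simpa [r] using hdvd
      apply Fin.ext
      show (s i : ℕ) = a i % 4
      have h3 := (s i).2
      omega
    · rfl
  · simp

/-- power series with prescribed coefficients -/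
def mkS {K : Type} [Field K] (c : (Fin 3 →₀ ℕ) → K) : MvPowerSeries (Fin 3) K := c

theorem coeff_mkS {K : Type} [Field K] (c : (Fin 3 →₀ ℕ) → K) (a : Fin 3 →₀ ℕ) :
    coeff a (mkS c) = c a := rfl

theorem map_finite [Module.Finite k ℂ] :
    (MvPowerSeries.map (σ := Fin 3) (algebraMap k ℂ)).Finite := by
  classical
  let b := Module.finBasis k ℂ
  apply finite_of_family _ (F := Fin (Module.finrank k ℂ)) (fun i => C (b i))
  intro x
  refine ⟨fun i => mkS (fun m => b.repr (coeff m x) i), ?_⟩
  ext a
  rw [map_sum]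
  have h1 : ∀ i, coeff a (MvPowerSeries.map (algebraMap k ℂ)
      (mkS (fun m => b.repr (coeff m x) i)) * C (b i)) =
      b.repr (coeff a x) i • b i := by
    intro i
    rw [coeff_mul_C, coeff_map, Algebra.smul_def, coeff_mkS]
  simp only [h1]
  exact (b.sum_repr (coeff a x)).symm

/-- the structure map `k⟦T₀,T₁,T₂⟧ → ℂ⟦X₀,X₁,X₂⟧`, `Tᵢ ↦ Xᵢ⁴` -/
noncomputable def theta (k : Type) [Field k] [Algebra k ℂ] : MvPowerSeries (Fin 3) k →+* S :=
  (expand (σ := Fin 3) (R := ℂ) 4 (by norm_num) : S →+* S).comp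
    (MvPowerSeries.map (σ := Fin 3) (algebraMap k ℂ))

theorem theta_finite [Module.Finite k ℂ] : (theta k).Finite :=
  expand_finite.comp map_finite

theorem theta_mem (f : MvPowerSeries (Fin 3) k) :
    theta k f - algebraMap k S (constantCoeff f) ∈ mS ℂ ^ 4 := by
  rw [mS_pow_eq]
  intro a ha
  rw [map_sub]
  by_cases h0 : a = 0
  · subst h0
    rw [coeff_zero_eq_constantCoeff_apply, coeff_zero_eq_constantCoeff_apply,
      constantCoeff_algebraMap']
    simp [theta]
  · have hex : ∃ i, ¬ 4 ∣ a i := by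
      by_contra h
      push Not at h
      apply h0
      ext i
      have h1 : a 0 + a 1 + a 2 < 4 := by simpa [wdeg] using ha
      have e0 := h 0
      have e1 := h 1
      have e2 := h 2
      fin_cases i <;> simp <;> omega
    obtain ⟨i, hi⟩ := hex
    rw [MvPowerSeries.algebraMap_apply, coeff_C, if_neg h0, sub_zero]
    exact coeff_expand_of_not_dvd 4 (by norm_num) _ hi

theorem theta_mem_A (D : Dat k ι) (f : MvPowerSeries (Fin 3) k) :
    (fun _ => theta k f : ι → S) ∈ D.A :=
  ⟨constantCoeff f, 0, zero_mem _, fun j => by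
    simpa using D.hc4 j (theta_mem f)⟩

/-- the structure map to `A` -/
noncomputable def Dat.th (D : Dat k ι) : MvPowerSeries (Fin 3) k →+* D.A :=
  RingHom.codRestrict ((algebraMap S (ι → S)).comp (theta k)) D.A (fun f => theta_mem_A D f)

theorem Dat.th_apply (f : MvPowerSeries (Fin 3) k) (j : ι) : (D.th f).1 j = theta k f := rfl

theorem factor_finite {T A P : Type} [CommRing T] [CommRing A] [CommRing P] [IsNoetherianRing T]
    (g : T →+* A) (i : A →+* P) (hi : Function.Injective i) (h : (i.comp g).Finite) :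
    g.Finite := by
  let _ : Algebra T A := g.toAlgebra
  let _ : Algebra T P := (i.comp g).toAlgebra
  have h3 : Module.Finite T P := h
  let φ : A →ₗ[T] P :=
    { toFun := i
      map_add' := map_add i
      map_smul' := fun c x => by
        rw [Algebra.smul_def, RingHom.id_apply, Algebra.smul_def, map_mul]
        rfl }
  exact Module.Finite.of_injective φ hi

theorem noeth_of_finite {T A : Type} [CommRing T] [CommRing A] [IsNoetherianRing T]
    (g : T →+* A) (h : g.Finite) : IsNoetherianRing A := by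
  let _ : Algebra T A := g.toAlgebra
  have h3 : Module.Finite T A := h
  have h4 : IsNoetherian T A := isNoetherian_of_isNoetherianRing_of_finite _ _
  exact isNoetherian_of_tower T h4

theorem Dat.th_finite [Module.Finite k ℂ] [Fintype ι] : D.th.Finite := by
  have h1 : (algebraMap S (ι → S)).Finite := by
    rw [RingHom.finite_algebraMap]
    infer_instance
  have h2 : ((algebraMap S (ι → S)).comp (theta k)).Finite := h1.comp theta_finite
  exact factor_finite D.th (D.A.val : D.A →+* (ι → S)) Subtype.val_injective h2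

theorem Dat.isNoetherianRing [Module.Finite k ℂ] [Fintype ι] : IsNoetherianRing D.A :=
  noeth_of_finite D.th D.th_finite

end Pool.Agent.Lib.MP_69a698_al
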