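import Pool.Agent.Lib.MP_69a698_al.Lex

/-! # Counting lattice points and length estimates for powers of ideals -/

open MvPowerSeries Finset

namespace Pool.Agent.Lib.MP_69a698_al

/-- triples with sum `< n` -/
def tri (n : ℕ) : Finset (ℕ × ℕ × ℕ) :=
  (range n ×ˢ (range n ×ˢ range n)).filter (fun k => k.1 + k.2.1 + k.2.2 < n)

theorem mem_tri {n : ℕ} {k : ℕ × ℕ × ℕ} : k ∈ tri n ↔ k.1 + k.2.1 + k.2.2 < n := by
  unfold tri
  simp only [mem_filter, mem_product, mem_range, and_iff_right_iff_imp]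
  intro h
  omega

theorem gsum (m : ℕ) : 2 * ∑ b ∈ range m, (m - b) = m * (m + 1) := by
  induction m with
  | zero => simp
  | succ m ih =>
    rw [sum_range_succ']
    have : ∑ b ∈ range m, (m + 1 - (b + 1)) = ∑ b ∈ range m, (m - b) := by
      apply sum_congr rfl
      intro b _
      omega
    rw [this, mul_add, ih]
    simp
    ring

theorem gsum' (n m : ℕ) (h : m ≤ n) : ∑ b ∈ range n, (m - b) = ∑ b ∈ range m, (m - b) := by
  symm
  apply sum_subset (range_mono h)
  intro x _ hx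
  simp at hx
  omega

theorem card_tri (n : ℕ) : 6 * (tri n).card = n * (n + 1) * (n + 2) := by
  have h1 : (tri n).card = ∑ a ∈ range n, ∑ b ∈ range (n - a), (n - a - b) := by
    unfold tri
    rw [card_filter, sum_product]
    apply sum_congr rfl
    intro a ha
    rw [sum_product, ← gsum' n (n - a) (by omega)]
    apply sum_congr rfl
    intro b hb
    rw [← card_filter]
    have : (range n).filter (fun c => a + b + c < n) = range (n - a - b) := by
      ext c
      simp only [mem_filter, mem_range]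
      omega
    rw [this, card_range]
  rw [h1]
  have h2 : ∀ n : ℕ, 6 * ∑ a ∈ range n, ∑ b ∈ range (n - a), (n - a - b) =
      n * (n + 1) * (n + 2) := by
    intro n
    induction n with
    | zero => simp
    | succ m ih =>
      rw [sum_range_succ']
      have : ∑ a ∈ range m, ∑ b ∈ range (m + 1 - (a + 1)), (m + 1 - (a + 1) - b) =
          ∑ a ∈ range m, ∑ b ∈ range (m - a), (m - a - b) := by
        apply sum_congr rfl
        intro b _
        have : m + 1 - (b + 1) = m - b := by omega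
        rw [this]
      rw [this, mul_add, ih]
      have := gsum (m + 1)
      simp only [Nat.sub_zero]
      have h3 : 6 * ∑ b ∈ range (m + 1), (m + 1 - b) = 3 * ((m + 1) * (m + 1 + 1)) := by
        rw [← this]; ring
      rw [h3]
      ring
  exact h2 n

variable {K : Type} [Field K]

/-- Upper bound for the length of `S/Jⁿ` from a covering of `ℕ³` by finitely many lattice cones
spanned by leading exponents of `J`. -/
theorem length_pow_le {J : Ideal (MvPowerSeries (Fin 3) K)} {F : Type} [Fintype F]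
    (β : F → (Fin 3 →₀ ℕ)) (v : F → Fin 3 → (Fin 3 →₀ ℕ)) (hv : ∀ f i, v f i ∈ Ex J)
    (hc : ∀ γ : Fin 3 →₀ ℕ, ∃ f, ∃ k : Fin 3 → ℕ, γ = β f + ∑ i, k i • v f i)
    (n : ℕ) {N : ℕ}
    (hN : ∀ f : MvPowerSeries (Fin 3) K, (∀ a ∈ lowDeg N, coeff a f = 0) → f ∈ J ^ n) :
    Module.length K (MvPowerSeries (Fin 3) K ⧸ J ^ n) ≤ ((Fintype.card F * (tri n).card : ℕ) : ℕ∞) := by
  classical
  let T : Finset (Fin 3 →₀ ℕ) := ((Finset.univ : Finset F) ×ˢ (tri n)).image
    (fun p => β p.1 + (p.2.1 • v p.1 0 + p.2.2.1 • v p.1 1 + p.2.2.2 • v p.1 2))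
  have h1 : T.card ≤ Fintype.card F * (tri n).card := by
    refine card_image_le.trans ?_
    rw [card_product, card_univ]
  refine (length_le_card hN T ?_).trans (by exact_mod_cast h1)
  intro γ hγ
  obtain ⟨f, k, hk⟩ := hc γ
  have hk2 : n ≤ ∑ i, k i := by
    by_contra hlt
    push Not at hlt
    apply hγ
    rw [mem_image]
    refine ⟨(f, (k 0, k 1, k 2)), ?_, ?_⟩
    · rw [mem_product]
      refine ⟨mem_univ _, mem_tri.mpr ?_⟩
      simpa [Fin.sum_univ_three] using hlt
    · rw [hk, Fin.sum_univ_three]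
  rw [hk]
  exact Ex_add _ (Ex_mono (Ideal.pow_le_pow_right hk2) (Ex_sum (hv f) k))

/-- Lech's inequality for `K⟦X₀,X₁,X₂⟧`: `ℓ(S/Jⁿ) ≤ n³ ℓ(S/J)`. -/
theorem length_pow_le_lech {J : Ideal (MvPowerSeries (Fin 3) K)} {N : ℕ}
    (hN : ∀ f : MvPowerSeries (Fin 3) K, (∀ a ∈ lowDeg N, coeff a f = 0) → f ∈ J)
    (n : ℕ) (hn : 0 < n) {N' : ℕ}
    (hN' : ∀ f : MvPowerSeries (Fin 3) K, (∀ a ∈ lowDeg N', coeff a f = 0) → f ∈ J ^ n) :
    Module.length K (MvPowerSeries (Fin 3) K ⧸ J ^ n) ≤
      (n : ℕ∞) ^ 3 * Module.length K (MvPowerSeries (Fin 3) K ⧸ J) := by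
  classical
  let D : Finset (Fin 3 →₀ ℕ) := (lowDeg N).filter (fun a => a ∉ Ex J)
  have hD : ∀ a, a ∉ D → a ∈ Ex J := by
    intro a ha
    by_contra h
    apply ha
    rw [mem_filter]
    refine ⟨?_, h⟩
    by_contra h2
    apply h
    refine ⟨monomial a 1, hN _ ?_, lexOrder_monomial_one a⟩
    intro b hb
    rw [coeff_monomial, if_neg]
    rintro rfl
    exact h2 hb
  let C : Finset (Fin 3 →₀ ℕ) := (Finset.univ : Finset (Fin 3 → Fin n)).image
    (fun f => Finsupp.equivFunOnFinite.symm (fun i => (f i : ℕ)))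
  have hC : C.card ≤ n ^ 3 := by
    refine card_image_le.trans ?_
    simp
  let T : Finset (Fin 3 →₀ ℕ) := (C ×ˢ D).image (fun p => p.1 + n • p.2)
  have hT : T.card ≤ n ^ 3 * D.card := by
    refine card_image_le.trans ?_
    rw [card_product]
    exact Nat.mul_le_mul_right _ hC
  have h1 := length_le_card hN' T ?_
  · refine h1.trans ?_
    calc ((T.card : ℕ) : ℕ∞) ≤ ((n ^ 3 * D.card : ℕ) : ℕ∞) := by exact_mod_cast hT
      _ = (n : ℕ∞) ^ 3 * (D.card : ℕ∞) := by push_cast; rfl
      _ ≤ _ := by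
        gcongr
        exact card_le_length D (fun a ha => (mem_filter.mp ha).2)
  · intro γ hγ
    let q : Fin 3 →₀ ℕ := Finsupp.equivFunOnFinite.symm (fun i => γ i / n)
    let r : Fin 3 →₀ ℕ := Finsupp.equivFunOnFinite.symm (fun i => γ i % n)
    have hqr : γ = r + n • q := by
      ext i
      simp [q, r, Nat.mod_add_div]
    have hqE : q ∈ Ex J := by
      apply hD
      intro hq
      apply hγ
      rw [mem_image]
      refine ⟨(r, q), ?_, hqr.symm⟩
      rw [mem_product]
      refine ⟨?_, hq⟩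
      rw [mem_image]
      refine ⟨fun i => ⟨γ i % n, Nat.mod_lt _ hn⟩, mem_univ _, ?_⟩
      ext i
      simp [r]
    rw [hqr]
    exact Ex_add _ (Ex_pow n hqE)

end Pool.Agent.Lib.MP_69a698_al
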