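import Pool.Agent.Lib.MP_69a698_al.Data

/-! # Upper bounds for the multiplicities of the component ideals -/

open MvPowerSeries Finset IsLocalRing

namespace Pool.Agent.Lib.MP_69a698_al

/-- box bound -/
theorem length_pow_le_box {J : Ideal S} (p : Fin 3 → ℕ) (hp : ∀ i, 0 < p i)
    (h : ∀ i, Finsupp.single i (p i) ∈ Ex J) (n : ℕ) {N : ℕ}
    (hN : ∀ f : S, (∀ a ∈ lowDeg N, coeff a f = 0) → f ∈ J ^ n) :
    Module.length ℂ (S ⧸ J ^ n) ≤ ((p 0 * p 1 * p 2 * (tri n).card : ℕ) : ℕ∞) := by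
  have := length_pow_le (J := J) (F := ∀ i, Fin (p i))
    (fun f => Finsupp.equivFunOnFinite.symm (fun i => (f i : ℕ)))
    (fun _ i => Finsupp.single i (p i)) (fun _ i => h i) ?_ n hN
  · refine this.trans ?_
    rw [Fintype.card_pi]
    simp [Fin.prod_univ_three]
  · intro γ
    refine ⟨fun i => ⟨γ i % p i, Nat.mod_lt _ (hp i)⟩, fun i => γ i / p i, ?_⟩
    ext i
    simp only [Finsupp.add_apply, Finsupp.equivFunOnFinite_symm_apply_apply, Fin.sum_univ_three,
      Finsupp.smul_apply]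
    fin_cases i
    · simp [Nat.mod_add_div']
    · simp [Nat.mod_add_div']
    · simp [Nat.mod_add_div']

/-- exponent vector -/
noncomputable def ev (a b c : ℕ) : Fin 3 →₀ ℕ := Finsupp.equivFunOnFinite.symm ![a, b, c]

@[simp] theorem ev_zero (a b c : ℕ) : ev a b c 0 = a := rfl
@[simp] theorem ev_one (a b c : ℕ) : ev a b c 1 = b := rfl
@[simp] theorem ev_two (a b c : ℕ) : ev a b c 2 = c := rfl

theorem ev_ext {x : Fin 3 →₀ ℕ} {a b c : ℕ} (h0 : x 0 = a) (h1 : x 1 = b) (h2 : x 2 = c) :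
    x = ev a b c := by
  ext i
  fin_cases i
  · exact h0
  · exact h1
  · exact h2

theorem mem_Ex_of_monomial {J : Ideal S} {a : Fin 3 →₀ ℕ} (h : monomial a (1 : ℂ) ∈ J) :
    a ∈ Ex J := ⟨_, h, lexOrder_monomial_one a⟩

/-- bound for the ideal `(s⁴, s²t, t³, r)` -/
theorem length_pow_le_c0 {J : Ideal S} (hJ : c0 ≤ J) (n : ℕ) {N : ℕ}
    (hN : ∀ f : S, (∀ a ∈ lowDeg N, coeff a f = 0) → f ∈ J ^ n) :
    Module.length ℂ (S ⧸ J ^ n) ≤ ((10 * (tri n).card : ℕ) : ℕ∞) := by
  have hE : ∀ a : Fin 3 →₀ ℕ, a ∉ Lam → a ∈ Ex J := fun a ha =>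
    mem_Ex_of_monomial (hJ (monomial_mem_c0 ha 1))
  have := length_pow_le (J := J) (F := Fin 4 ⊕ (Fin 2 × Fin 3))
    (Sum.elim (fun ρ => ev ρ 0 0) (fun q => ev q.1 q.2 0))
    (Sum.elim (fun _ => ![ev 4 0 0, ev 2 1 0, ev 0 0 1])
      (fun _ => ![ev 0 3 0, ev 2 1 0, ev 0 0 1])) ?_ ?_ n hN
  · refine this.trans ?_
    simp
  · intro f i
    apply hE
    cases f <;> fin_cases i <;> simp [Lam]
  · intro γ
    by_cases hγ : 2 * γ 1 ≤ γ 0
    · refine ⟨Sum.inl ⟨(γ 0 - 2 * γ 1) % 4, Nat.mod_lt _ (by norm_num)⟩,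
        ![(γ 0 - 2 * γ 1) / 4, γ 1, γ 2], ?_⟩
      ext i
      simp only [Sum.elim_inl, Fin.sum_univ_three, Finsupp.add_apply, Finsupp.smul_apply,
        Matrix.cons_val_zero, Matrix.cons_val_one, Matrix.cons_val, smul_eq_mul]
      fin_cases i
      · simp
        omega
      · simp
      · simp
    · refine ⟨Sum.inr (⟨γ 0 % 2, Nat.mod_lt _ (by norm_num)⟩,
        ⟨(γ 1 - γ 0 / 2) % 3, Nat.mod_lt _ (by norm_num)⟩),
        ![(γ 1 - γ 0 / 2) / 3, γ 0 / 2, γ 2], ?_⟩
      ext i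
      simp only [Sum.elim_inr, Fin.sum_univ_three, Finsupp.add_apply, Finsupp.smul_apply,
        Matrix.cons_val_zero, Matrix.cons_val_one, Matrix.cons_val, smul_eq_mul]
      fin_cases i
      · simp
        omega
      · simp
        omega
      · simp

theorem two_mem_Ex {J : Ideal S} (hJ : V w1 2 ≤ J) (i : Fin 3) : Finsupp.single i 2 ∈ Ex J := by
  apply mem_Ex_of_monomial
  apply hJ
  apply monomial_mem_V
  fin_cases i <;> simp [wdeg]

theorem coeff_lin (v : Fin 3 → ℂ) (l : Fin 3) : coeff (Finsupp.single l 1) (lin v) = v l := by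
  simp only [lin, map_sum]
  rw [Finset.sum_eq_single l]
  · simp
  · intro b _ hb
    rw [coeff_monomial, if_neg]
    intro h
    exact hb (Finsupp.single_left_injective one_ne_zero h).symm
  · simp

theorem exists_of_coeff_lin {v : Fin 3 → ℂ} {a : Fin 3 →₀ ℕ} (h : coeff a (lin v) ≠ 0) :
    ∃ l, a = Finsupp.single l 1 := by
  by_contra hne
  push Not at hne
  apply h
  simp only [lin, map_sum]
  apply Finset.sum_eq_zero
  intro l _
  rw [coeff_monomial, if_neg (hne l)]

/-- leading exponent of a linear form -/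
theorem exists_lead {v : Fin 3 → ℂ} (hv : v ≠ 0) : ∃ l, v l ≠ 0 ∧
    lexOrder (lin v) = ((toLex (Finsupp.single l 1) : Lex (Fin 3 →₀ ℕ)) :
      WithTop (Lex (Fin 3 →₀ ℕ))) := by
  have h0 : lin v ≠ 0 := by
    intro h
    apply hv
    funext l
    rw [← coeff_lin v l, h]
    simp
  obtain ⟨d, hd⟩ := exists_finsupp_eq_lexOrder_of_ne_zero h0
  have hc := coeff_ne_zero_of_lexOrder hd.symm
  obtain ⟨l, rfl⟩ := exists_of_coeff_lin hc
  rw [coeff_lin] at hc
  exact ⟨l, hc, hd⟩

theorem main_bound_one {J : Ideal S} (hJ : V w1 2 ≤ J) {v : Fin 3 → ℂ} (hv : v ≠ 0)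
    (hvJ : lin v ∈ J) (n : ℕ) {N : ℕ}
    (hN : ∀ f : S, (∀ a ∈ lowDeg N, coeff a f = 0) → f ∈ J ^ n) :
    Module.length ℂ (S ⧸ J ^ n) ≤ ((4 * (tri n).card : ℕ) : ℕ∞) := by
  obtain ⟨l, -, hl⟩ := exists_lead hv
  have := length_pow_le_box (J := J) (fun i => if i = l then 1 else 2)
    (fun i => by split_ifs <;> norm_num) ?_ n hN
  · refine this.trans (le_of_eq ?_)
    fin_cases l <;> simp
  · intro i
    by_cases h : i = l
    · subst h
      simp only [if_true]
      exact ⟨_, hvJ, hl⟩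
    · simp only [h, if_false]
      exact two_mem_Ex hJ i

theorem main_bound_two {J : Ideal S} (hJ : V w1 2 ≤ J) {v w : Fin 3 → ℂ}
    (hvw : LinearIndependent ℂ ![v, w])
    (hvJ : lin v ∈ J) (hwJ : lin w ∈ J) (n : ℕ) {N : ℕ}
    (hN : ∀ f : S, (∀ a ∈ lowDeg N, coeff a f = 0) → f ∈ J ^ n) :
    Module.length ℂ (S ⧸ J ^ n) ≤ ((2 * (tri n).card : ℕ) : ℕ∞) := by
  rw [LinearIndependent.pair_iff] at hvw
  have hv : v ≠ 0 := by
    rintro rfl
    have := hvw 1 0 (by simp)
    simp at this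
  obtain ⟨l, hvl, hl⟩ := exists_lead hv
  let u : Fin 3 → ℂ := (-(w l / v l)) • v + (1 : ℂ) • w
  have hu : u ≠ 0 := by
    intro h
    have := hvw _ _ h
    simp at this
  have hul : u l = 0 := by
    simp only [u, Pi.add_apply, Pi.smul_apply, smul_eq_mul]
    field_simp
    ring
  have huJ : lin u ∈ J := by
    simp only [u]
    rw [lin_add, ← C_mul_lin, ← C_mul_lin]
    exact add_mem (J.mul_mem_left _ hvJ) (J.mul_mem_left _ hwJ)
  obtain ⟨m, hum, hm⟩ := exists_lead hu
  have hml : m ≠ l := by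
    rintro rfl
    exact hum hul
  have := length_pow_le_box (J := J) (fun i => if i = l ∨ i = m then 1 else 2)
    (fun i => by split_ifs <;> norm_num) ?_ n hN
  · refine this.trans (le_of_eq ?_)
    fin_cases l <;> fin_cases m <;> first | (exact absurd rfl hml) | simp
  · intro i
    by_cases h : i = l
    · subst h
      simp only [true_or, if_true]
      exact ⟨_, hvJ, hl⟩
    · by_cases h' : i = m
      · subst h'
        simp only [or_true, if_true]
        exact ⟨_, huJ, hm⟩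
      · simp only [h, h', or_self, if_false]
        exact two_mem_Ex hJ i

theorem main_bound_zero {J : Ideal S} (hJ : V w1 2 ≤ J) (n : ℕ) {N : ℕ}
    (hN : ∀ f : S, (∀ a ∈ lowDeg N, coeff a f = 0) → f ∈ J ^ n) :
    Module.length ℂ (S ⧸ J ^ n) ≤ ((8 * (tri n).card : ℕ) : ℕ∞) := by
  have := length_pow_le_box (J := J) (fun _ => 2)
    (fun i => by norm_num) (fun i => two_mem_Ex hJ i) n hN
  simpa using this

theorem lin_single (l : Fin 3) : lin (Pi.single l 1) = monomial (Finsupp.single l 1) 1 := by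
  simp only [lin]
  rw [Finset.sum_eq_single l]
  · simp
  · intro b _ hb
    simp [Pi.single_eq_of_ne hb]
  · simp

theorem main_bound_all {J : Ideal S} (hJ : ∀ v, lin v ∈ J) (n : ℕ) {N : ℕ}
    (hN : ∀ f : S, (∀ a ∈ lowDeg N, coeff a f = 0) → f ∈ J ^ n) :
    Module.length ℂ (S ⧸ J ^ n) ≤ ((1 * (tri n).card : ℕ) : ℕ∞) := by
  have := length_pow_le_box (J := J) (fun _ => 1)
    (fun i => by norm_num) (fun i => ?_) n hN
  · simpa using this
  · apply mem_Ex_of_monomial
    rw [← lin_single]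
    exact hJ _

theorem gain_bound_all {J : Ideal S} (hc : c0 ≤ J) (hJ : ∀ a : ℂ, gn a (star a) ∈ J) (n : ℕ) {N : ℕ}
    (hN : ∀ f : S, (∀ a ∈ lowDeg N, coeff a f = 0) → f ∈ J ^ n) :
    Module.length ℂ (S ⧸ J ^ n) ≤ ((6 * (tri n).card : ℕ) : ℕ∞) := by
  have h1 : gn 1 0 ∈ J := by
    have h2 := J.mul_mem_left (MvPowerSeries.C (1 / 2)) (hJ 1)
    have h3 := J.mul_mem_left (MvPowerSeries.C (-(Complex.I / 2))) (hJ Complex.I)
    rw [C_mul_gn] at h2 h3
    have h4 := add_mem h2 h3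
    rw [← gn_add] at h4
    convert h4 using 2
    · have : Complex.I * Complex.I = -1 := Complex.I_mul_I
      linear_combination (1/2 : ℂ) * this
    · have : Complex.I * Complex.I = -1 := Complex.I_mul_I
      simp
      linear_combination (-1/2 : ℂ) * this
  have h2 : gn 0 1 ∈ J := by
    have h3 := J.sub_mem (hJ 1) h1
    convert h3 using 1
    simp [gn]
  have h1' : monomial (Finsupp.single 1 2) (1 : ℂ) ∈ J := by simpa [gn] using h1
  have h2' : monomial (Finsupp.single 0 3) (1 : ℂ) ∈ J := by simpa [gn] using h2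
  have := length_pow_le_box (J := J) ![3, 2, 1]
    (fun i => by fin_cases i <;> simp) (fun i => ?_) n hN
  · simpa using this
  · fin_cases i
    · exact mem_Ex_of_monomial h2'
    · exact mem_Ex_of_monomial h1'
    · apply mem_Ex_of_monomial
      apply hc
      apply monomial_mem_c0
      simp [Lam]

theorem length_c0 : Module.length ℂ (S ⧸ c0) ≤ 8 := by
  classical
  let T : Finset (Fin 3 →₀ ℕ) :=
    {ev 0 0 0, ev 1 0 0, ev 2 0 0, ev 3 0 0, ev 0 1 0, ev 1 1 0, ev 0 2 0, ev 1 2 0}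
  have hT : T.card ≤ 8 :=
    (Finset.card_insert_le _ _).trans (Nat.succ_le_succ
      ((Finset.card_insert_le _ _).trans (Nat.succ_le_succ Finset.card_le_six)))
  have h1 := length_le_card (J := c0) (low_of_le le_c0) T ?_
  · exact h1.trans (by exact_mod_cast hT)
  · intro a ha
    apply mem_Ex_of_monomial
    apply monomial_mem_c0
    intro h
    apply ha
    simp only [Lam, Set.mem_ofPred_eq] at h
    obtain ⟨h2, h1, h0, h3⟩ := h
    have e : a = ev (a 0) (a 1) 0 := ev_ext rfl rfl h2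
    rw [e]
    simp only [T, Finset.mem_insert, Finset.mem_singleton]
    interval_cases h5 : a 0 <;> interval_cases h6 : a 1 <;> simp_all

theorem length_V2 : Module.length ℂ (S ⧸ (V w1 2 : Ideal S)) ≤ 8 := by
  classical
  let T : Finset (Fin 3 →₀ ℕ) := {ev 0 0 0, ev 1 0 0, ev 0 1 0, ev 0 0 1}
  have hT : T.card ≤ 4 := Finset.card_le_four
  have h1 := length_le_card (J := V w1 2) (low_of_le le_V2) T ?_
  · refine h1.trans ?_
    have : T.card ≤ 8 := hT.trans (by norm_num)
    exact_mod_cast this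
  · intro a ha
    apply mem_Ex_of_monomial
    apply monomial_mem_V
    by_contra h
    apply ha
    push Not at h
    simp only [wdeg, one_mul] at h
    have e : a = ev (a 0) (a 1) (a 2) := ev_ext rfl rfl rfl
    rw [e]
    simp only [T, Finset.mem_insert, Finset.mem_singleton]
    have h0 : a 0 ≤ 1 := by omega
    have h1 : a 1 ≤ 1 := by omega
    have h2 : a 2 ≤ 1 := by omega
    interval_cases h5 : a 0 <;> interval_cases h6 : a 1 <;> interval_cases h7 : a 2 <;> simp_all

theorem length_cc (ι : Type) (j : Option ι) : Module.length ℂ (S ⧸ cc ι j) ≤ 8 := by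
  cases j with
  | none => exact length_c0
  | some i => exact length_V2

end Pool.Agent.Lib.MP_69a698_al
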