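import Pool.Agent.Lib.MP_69a698_al.Data
import Pool.Agent.Lib.MP_69a698_al.Complete

/-! # The complexified ring and the flat local extension -/

open MvPowerSeries Finset IsLocalRing

namespace Pool.Agent.Lib.MP_69a698_al

/-- the ideals of the complexified gluing data -/
noncomputable def cc2 (ι : Type) : Option ι ⊕ Option ι → Ideal S := Sum.elim (cc ι) (cc ι)

/-- linear part of the complexified ring -/
noncomputable def psi2 (ι : Type) (ξ η : Fin 3 → ℂ) : Option ι ⊕ Option ι → S :=
  Sum.elim (psi ι ξ (η 0)) (psi ι η (ξ 0))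

/-- the linear part of the complexified ring -/
noncomputable def phi2 (ι : Type) :
    ((Fin 3 → ℂ) × (Fin 3 → ℂ)) →ₗ[ℂ] (Option ι ⊕ Option ι → S) where
  toFun v := psi2 ι v.1 v.2
  map_add' v w := by
    funext j
    cases j with
    | inl j => exact congrFun (psi_add ι v.1 w.1 (v.2 0) (w.2 0)) j
    | inr j => exact congrFun (psi_add ι v.2 w.2 (v.1 0) (w.1 0)) j
  map_smul' r v := by
    funext j
    cases j with
    | inl j => exact congrFun (complex_smul_psi ι r v.1 (v.2 0)) j
    | inr j => exact congrFun (complex_smul_psi ι r v.2 (v.1 0)) j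

/-- the gluing data of the complexified ring -/
noncomputable def D2 (ι : Type) : Dat ℂ (Option ι ⊕ Option ι) where
  c := cc2 ι
  U := LinearMap.range (phi2 ι)
  hc4 := by rintro (j | j) <;> exact le_cc ι j
  hc1 := by rintro (j | j) <;> exact cc_le ι j
  hU1 := by
    rintro _ ⟨v, rfl⟩ (j | j)
    · exact psi_mem _ _ _ _
    · exact psi_mem _ _ _ _
  hU2 := by
    rintro _ ⟨v, rfl⟩ _ ⟨w, rfl⟩ (j | j)
    · exact psi_mul_mem _ _ _ _ _ _
    · exact psi_mul_mem _ _ _ _ _ _

/-- conjugation of the coefficients -/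
noncomputable def cj : S →+* S := MvPowerSeries.map (starRingEnd ℂ)

theorem coeff_cj (a : Fin 3 →₀ ℕ) (f : S) : coeff a (cj f) = star (coeff a f) := by
  rw [cj, coeff_map]; rfl

theorem cj_cj (f : S) : cj (cj f) = f := by
  ext a
  rw [coeff_cj, coeff_cj, star_star]

theorem cj_monomial (a : Fin 3 →₀ ℕ) (z : ℂ) : cj (monomial a z) = monomial a (star z) := by
  ext b
  rw [coeff_cj, coeff_monomial, coeff_monomial]
  split_ifs <;> simp

theorem cj_lin (v : Fin 3 → ℂ) : cj (lin v) = lin (star v) := by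
  simp only [lin, map_sum, cj_monomial]
  rfl

theorem cj_gn (a b : ℂ) : cj (gn a b) = gn (star a) (star b) := by
  simp only [gn, map_add, cj_monomial]

theorem cj_psi (ι : Type) (ξ : Fin 3 → ℂ) (b : ℂ) (j : Option ι) :
    cj (psi ι ξ b j) = psi ι (star ξ) (star b) j := by
  cases j with
  | none => exact cj_gn _ _
  | some i => exact cj_lin _

theorem cj_mem_cc (ι : Type) (j : Option ι) {f : S} (hf : f ∈ cc ι j) : cj f ∈ cc ι j := by
  cases j with
  | none =>
    intro a ha
    rw [coeff_cj, hf a ha, star_zero]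
  | some i =>
    intro a ha
    rw [coeff_cj, hf a ha, star_zero]

theorem cj_C (z : ℂ) : cj (MvPowerSeries.C z) = MvPowerSeries.C (star z) := by
  rw [← monomial_zero_eq_C_apply, ← monomial_zero_eq_C_apply, cj_monomial]

theorem algebraMap_complex (r : ℂ) : algebraMap ℂ S r = MvPowerSeries.C r := by
  rw [MvPowerSeries.algebraMap_apply]; rfl

/-- the underlying map of the inclusion -/
noncomputable def incFun (ι : Type) : (Option ι → S) →+* (Option ι ⊕ Option ι → S) where
  toFun f := Sum.elim f (fun j => cj (f j))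
  map_one' := by funext j; cases j <;> simp
  map_mul' f g := by funext j; cases j <;> simp
  map_zero' := by funext j; cases j <;> simp
  map_add' f g := by funext j; cases j <;> simp

theorem incFun_mem (ι : Type) {f : Option ι → S} (hf : f ∈ (D1 ι).A) :
    incFun ι f ∈ (D2 ι).A := by
  obtain ⟨l, _, ⟨v, rfl⟩, h⟩ := hf
  refine ⟨(l : ℂ), _, ⟨(v, star v), rfl⟩, ?_⟩
  have h' : ∀ j, f j - MvPowerSeries.C (l : ℂ) - psi ι v (star (v 0)) j ∈ cc ι j := by
    intro j
    have h1 := h j
    rw [algebraMap_real] at h1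
    exact h1
  rintro (j | j)
  · rw [algebraMap_complex]
    exact h' j
  · rw [algebraMap_complex]
    have h2 := cj_mem_cc ι j (h' j)
    rw [map_sub, map_sub, cj_C, cj_psi, star_star] at h2
    have h3 : star (l : ℂ) = (l : ℂ) := Complex.conj_ofReal l
    rw [h3] at h2
    exact h2

/-- the inclusion of the real ring in the complexified ring -/
noncomputable def inc (ι : Type) : (D1 ι).A →+* (D2 ι).A :=
  ((incFun ι).comp ((D1 ι).A.val : (D1 ι).A →+* (Option ι → S))).codRestrict (D2 ι).A
    (fun x => incFun_mem ι x.2)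

theorem inc_inl (ι : Type) (x : (D1 ι).A) (j : Option ι) : (inc ι x).1 (Sum.inl j) = x.1 j := rfl

theorem inc_inr (ι : Type) (x : (D1 ι).A) (j : Option ι) :
    (inc ι x).1 (Sum.inr j) = cj (x.1 j) := rfl

/-- first real part -/
theorem re_mem (ι : Type) (c : ℂ) (x : (D2 ι).A) :
    (fun j => MvPowerSeries.C c * x.1 (Sum.inl j) +
      MvPowerSeries.C (star c) * cj (x.1 (Sum.inr j)) : Option ι → S) ∈ (D1 ι).A := by
  obtain ⟨l, _, ⟨⟨ξ, η⟩, rfl⟩, h⟩ := id x.2
  refine ⟨2 * (c * l).re, _, ⟨c • ξ + star c • star η, rfl⟩, ?_⟩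
  intro j
  have h1 : x.1 (Sum.inl j) - MvPowerSeries.C l - psi ι ξ (η 0) j ∈ cc ι j := by
    have := h (Sum.inl j)
    rw [algebraMap_complex] at this
    exact this
  have h2 : x.1 (Sum.inr j) - MvPowerSeries.C l - psi ι η (ξ 0) j ∈ cc ι j := by
    have := h (Sum.inr j)
    rw [algebraMap_complex] at this
    exact this
  have h3 := cj_mem_cc ι j h2
  rw [map_sub, map_sub, cj_C, cj_psi] at h3
  have h4 := add_mem ((cc ι j).mul_mem_left (MvPowerSeries.C c) h1)
    ((cc ι j).mul_mem_left (MvPowerSeries.C (star c)) h3)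
  have e1 : algebraMap ℝ S (2 * (c * l).re) = MvPowerSeries.C (c * l) +
      MvPowerSeries.C (star c * star l) := by
    rw [algebraMap_real, ← map_add]
    congr 1
    have : star c * star l = (starRingEnd ℂ) (c * l) := by
      rw [map_mul]; rfl
    rw [this, Complex.add_conj]
  have e2 : phi ι (c • ξ + star c • star η) =
      c • psi ι ξ (η 0) + star c • psi ι (star η) (star (ξ 0)) := by
    rw [phi_apply, ← complex_smul_psi, ← complex_smul_psi, ← psi_add]
    congr 1
    simp
    ring
  show _ - algebraMap ℝ S (2 * (c * l).re) - phi ι (c • ξ + star c • star η) j ∈ cc ι j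
  rw [e1, e2, Pi.add_apply, Pi.smul_apply, Pi.smul_apply, Algebra.smul_def c (psi ι ξ (η 0) j),
    Algebra.smul_def (star c) (psi ι (star η) (star (ξ 0)) j), algebraMap_complex,
    algebraMap_complex]
  convert h4 using 1
  rw [map_mul, map_mul]
  ring

/-- real parts -/
noncomputable def rp (ι : Type) (c : ℂ) (x : (D2 ι).A) : (D1 ι).A := ⟨_, re_mem ι c x⟩

theorem rp_apply (ι : Type) (c : ℂ) (x : (D2 ι).A) (j : Option ι) :
    (rp ι c x).1 j = MvPowerSeries.C c * x.1 (Sum.inl j) +
      MvPowerSeries.C (star c) * cj (x.1 (Sum.inr j)) := rfl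

end Pool.Agent.Lib.MP_69a698_al
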