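import Pool.Agent.Lib.MP_69a698_al.Dim

/-! # The concrete gluing data over `ℝ` -/

open MvPowerSeries Finset IsLocalRing

namespace Pool.Agent.Lib.MP_69a698_al

/-- exponents outside the monomial ideal `(s⁴, s²t, t³, r)` (`s = X₀`, `t = X₁`, `r = X₂`) -/
def Lam : Set (Fin 3 →₀ ℕ) := {a | a 2 = 0 ∧ a 1 ≤ 2 ∧ a 0 ≤ 3 ∧ (a 0 ≤ 1 ∨ a 1 = 0)}

/-- the ideal `(s⁴, s²t, t³, r)` -/
def c0 : Ideal S where
  carrier := {f | ∀ a ∈ Lam, coeff a f = 0}
  add_mem' := by
    intro f g hf hg a ha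
    rw [map_add, hf a ha, hg a ha, add_zero]
  zero_mem' := by
    intro a _
    simp
  smul_mem' := by
    intro c f hf a ha
    rw [smul_eq_mul, coeff_mul]
    apply Finset.sum_eq_zero
    rintro ⟨p, q⟩ hpq
    rw [HasAntidiagonal.mem_antidiagonal] at hpq
    rw [hf q, mul_zero]
    simp only at hpq
    have h : ∀ i, a i = p i + q i := fun i => by rw [← hpq]; rfl
    simp only [Lam, Set.mem_ofPred_eq] at ha ⊢
    rw [h 0, h 1, h 2] at ha
    omega

theorem mem_c0 {f : S} : f ∈ c0 ↔ ∀ a ∈ Lam, coeff a f = 0 := Iff.rfl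

theorem monomial_mem_c0 {a : Fin 3 →₀ ℕ} (h : a ∉ Lam) (c : ℂ) : monomial a c ∈ c0 := by
  intro b hb
  rw [coeff_monomial, if_neg]
  rintro rfl
  exact h hb

/-- the linear form `Σ vₗ Xₗ` -/
noncomputable def lin (v : Fin 3 → ℂ) : S := ∑ l, monomial (Finsupp.single l 1) (v l)

/-- the element `a t² + b s³` -/
noncomputable def gn (a b : ℂ) : S :=
  monomial (Finsupp.single 1 2) a + monomial (Finsupp.single 0 3) b

theorem lin_mem (v : Fin 3 → ℂ) : lin v ∈ (V w1 1 : Ideal S) := by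
  apply sum_mem
  intro l _
  apply monomial_mem_V
  fin_cases l <;> simp [wdeg]

theorem gn_mem (a b : ℂ) : gn a b ∈ mS ℂ := by
  rw [mS_eq]
  apply add_mem
  · apply monomial_mem_V
    simp [wdeg]
  · apply monomial_mem_V
    simp [wdeg]

theorem gn_mul_mem (a b a' b' : ℂ) : gn a b * gn a' b' ∈ c0 := by
  have h : gn a b * gn a' b' =
      monomial (Finsupp.single 1 2 + Finsupp.single 1 2) (a * a') +
      monomial (Finsupp.single 1 2 + Finsupp.single 0 3) (a * b') +
      monomial (Finsupp.single 0 3 + Finsupp.single 1 2) (b * a') +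
      monomial (Finsupp.single 0 3 + Finsupp.single 0 3) (b * b') := by
    simp only [gn, add_mul, mul_add, monomial_mul_monomial]
    ring
  rw [h]
  refine add_mem (add_mem (add_mem ?_ ?_) ?_) ?_ <;> apply monomial_mem_c0 <;>
    simp [Lam]

theorem c0_le : c0 ≤ mS ℂ := by
  intro f hf
  rw [mem_mS_iff, ← coeff_zero_eq_constantCoeff_apply]
  exact hf 0 (by simp [Lam])

theorem le_c0 : mS ℂ ^ 4 ≤ c0 := by
  intro f hf a ha
  rw [mS_pow_eq] at hf
  apply hf
  simp only [Lam, Set.mem_ofPred_eq] at ha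
  simp only [wdeg, one_mul]
  omega

/-- the ideals of the gluing data -/
noncomputable def cc (ι : Type) : Option ι → Ideal S := fun o => o.elim c0 (fun _ => V w1 2)

theorem V2_le : (V w1 2 : Ideal S) ≤ mS ℂ := by
  rw [mS_eq]
  exact V_anti _ (by norm_num)

theorem le_V2 : mS ℂ ^ 4 ≤ (V w1 2 : Ideal S) := by
  rw [mS_pow_eq]
  exact V_anti _ (by norm_num)

theorem cc_le (ι : Type) (j : Option ι) : cc ι j ≤ mS ℂ := by
  cases j with
  | none => exact c0_le
  | some i => exact V2_le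

theorem le_cc (ι : Type) (j : Option ι) : mS ℂ ^ 4 ≤ cc ι j := by
  cases j with
  | none => exact le_c0
  | some i => exact le_V2

/-- `ψ ξ b` : linear part with first coordinates `ξ` and `s³`-coefficient `b` -/
noncomputable def psi (ι : Type) (ξ : Fin 3 → ℂ) (b : ℂ) : Option ι → S :=
  fun o => o.elim (gn (ξ 0) b) (fun _ => lin ξ)

theorem psi_mem (ι : Type) (ξ : Fin 3 → ℂ) (b : ℂ) (j : Option ι) : psi ι ξ b j ∈ mS ℂ := by
  cases j with
  | none => exact gn_mem _ _
  | some i => rw [mS_eq]; exact lin_mem _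

theorem psi_mul_mem (ι : Type) (ξ η : Fin 3 → ℂ) (b b' : ℂ) (j : Option ι) :
    psi ι ξ b j * psi ι η b' j ∈ cc ι j := by
  cases j with
  | none => exact gn_mul_mem _ _ _ _
  | some i => exact V_mul (N := 1) (M := 1) (lin_mem ξ) (lin_mem η)

theorem lin_add (v w : Fin 3 → ℂ) : lin (v + w) = lin v + lin w := by
  simp only [lin, Pi.add_apply, map_add, Finset.sum_add_distrib]

theorem gn_add (a b a' b' : ℂ) : gn (a + a') (b + b') = gn a b + gn a' b' := by
  simp only [gn, map_add]; ring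

theorem C_mul_lin (c : ℂ) (v : Fin 3 → ℂ) : MvPowerSeries.C c * lin v = lin (c • v) := by
  simp only [lin, Finset.mul_sum, Pi.smul_apply, smul_eq_mul]
  apply Finset.sum_congr rfl
  intro l _
  rw [← monomial_zero_eq_C_apply, monomial_mul_monomial, zero_add]

theorem C_mul_gn (c a b : ℂ) : MvPowerSeries.C c * gn a b = gn (c * a) (c * b) := by
  simp only [gn, mul_add]
  rw [← monomial_zero_eq_C_apply, monomial_mul_monomial, monomial_mul_monomial, zero_add, zero_add]

theorem psi_add (ι : Type) (ξ η : Fin 3 → ℂ) (b b' : ℂ) :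
    psi ι (ξ + η) (b + b') = psi ι ξ b + psi ι η b' := by
  funext j
  cases j with
  | none => exact gn_add _ _ _ _
  | some i => exact lin_add _ _

theorem algebraMap_real (r : ℝ) : algebraMap ℝ S r = MvPowerSeries.C (r : ℂ) := by
  rw [MvPowerSeries.algebraMap_apply]; rfl

theorem real_smul_psi (ι : Type) (r : ℝ) (ξ : Fin 3 → ℂ) (b : ℂ) :
    psi ι (r • ξ) (r • b) = r • psi ι ξ b := by
  funext j
  rw [Pi.smul_apply, Algebra.smul_def r (psi ι ξ b j), algebraMap_real]
  cases j with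
  | none =>
    show gn _ _ = _ * gn _ _
    rw [C_mul_gn]
    simp
  | some i =>
    show lin _ = _ * lin _
    rw [C_mul_lin]
    congr 1

theorem complex_smul_psi (ι : Type) (r : ℂ) (ξ : Fin 3 → ℂ) (b : ℂ) :
    psi ι (r • ξ) (r • b) = r • psi ι ξ b := by
  funext j
  rw [Pi.smul_apply, Algebra.smul_def r (psi ι ξ b j)]
  cases j with
  | none =>
    show gn _ _ = MvPowerSeries.C r * gn _ _
    rw [C_mul_gn]
    simp
  | some i =>
    show lin _ = MvPowerSeries.C r * lin _
    rw [C_mul_lin]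

/-- the linear part of the real ring -/
noncomputable def phi (ι : Type) : (Fin 3 → ℂ) →ₗ[ℝ] (Option ι → S) where
  toFun v := psi ι v (star (v 0))
  map_add' v w := by
    rw [← psi_add]
    simp
  map_smul' r v := by
    rw [RingHom.id_apply, ← real_smul_psi]
    simp

theorem phi_apply (ι : Type) (v : Fin 3 → ℂ) : phi ι v = psi ι v (star (v 0)) := rfl

/-- the gluing data of the real ring -/
noncomputable def D1 (ι : Type) : Dat ℝ (Option ι) where
  c := cc ι
  U := LinearMap.range (phi ι)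
  hc4 := le_cc ι
  hc1 := cc_le ι
  hU1 := by
    rintro _ ⟨v, rfl⟩ j
    exact psi_mem _ _ _ _
  hU2 := by
    rintro _ ⟨v, rfl⟩ _ ⟨w, rfl⟩ j
    exact psi_mul_mem _ _ _ _ _ _

end Pool.Agent.Lib.MP_69a698_al
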