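import Mathlib

/-! # The Lech–Mumford constant

Definitions used by the statement of the hand-in for MP_69a698_al. -/

open IsLocalRing Filter
open scoped ENNReal

namespace Pool.Agent.Lib.MP_69a698_al

/-- The Krull dimension of `R` as a natural number. -/
noncomputable def dimNat (R : Type) [CommRing R] : ℕ := ((ringKrullDim R).unbotD 0).toNat

/-- The length of the `R`-module `R/I`, as an extended nonnegative real number. -/
noncomputable def colength (R : Type) [CommRing R] (I : Ideal R) : ℝ≥0∞ :=
  ((Module.length R (R ⧸ I) : ℕ∞) : ℝ≥0∞)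

/-- The Hilbert–Samuel multiplicity `e(I) = lim d! ℓ(R/Iⁿ) / n^d`, `d = dim R`
(the limit superior of a sequence that converges for an `𝔪`-primary ideal of a Noetherian local
ring). -/
noncomputable def mult (R : Type) [CommRing R] (I : Ideal R) : ℝ≥0∞ :=
  limsup (fun n : ℕ => ((dimNat R).factorial : ℝ≥0∞) * colength R (I ^ n) /
    (n : ℝ≥0∞) ^ (dimNat R)) atTop

/-- The Lech–Mumford constant: the supremum of `e(I) / (d! ℓ(R/I))` over all ideals `I` with
`√I = 𝔪`. -/
noncomputable def lechMumford (R : Type) [CommRing R] [IsLocalRing R] : ℝ≥0∞ :=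
  ⨆ I : {I : Ideal R // I.radical = maximalIdeal R},
    mult R I.1 / (((dimNat R).factorial : ℝ≥0∞) * colength R I.1)

end Pool.Agent.Lib.MP_69a698_al
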