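import Pool.Agent.Lib.MP_69a698_al.Complete

/-! # Krull dimension of the glued rings -/

open MvPowerSeries Finset IsLocalRing

namespace Pool.Agent.Lib.MP_69a698_al

variable {k : Type} [Field k] [Algebra k ℂ] {ι : Type} {D : Dat k ι}

/-- set the variables with index `< i` to zero -/
noncomputable def kap (i : ℕ) : S →+* MvPowerSeries {l : Fin 3 // i ≤ (l : ℕ)} ℂ :=
  (killCompl (R := ℂ) (Function.Embedding.subtype (fun l : Fin 3 => i ≤ (l : ℕ))) :
    S →ₐ[ℂ] MvPowerSeries {l : Fin 3 // i ≤ (l : ℕ)} ℂ).toRingHom

theorem kap_eq_zero_iff {i : ℕ} {f : S} :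
    kap i f = 0 ↔ ∀ a : Fin 3 →₀ ℕ, (∀ l : Fin 3, (l : ℕ) < i → a l = 0) → coeff a f = 0 := by
  constructor
  · intro h a ha
    let e := Function.Embedding.subtype (fun l : Fin 3 => i ≤ (l : ℕ))
    have hsupp : (a.support : Set (Fin 3)) ⊆ Set.range e := by
      intro l hl
      have : a l ≠ 0 := by simpa using hl
      have h2 : i ≤ (l : ℕ) := by
        by_contra h3
        exact this (ha l (by omega))
      exact ⟨⟨l, h2⟩, rfl⟩
    have h1 := congrArg (coeff (a.comapDomain e e.injective.injOn)) h
    have h2 : coeff (a.comapDomain e e.injective.injOn) (kap i f) =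
        coeff (Finsupp.embDomain e (a.comapDomain e e.injective.injOn)) f :=
      coeff_killCompl _ _
    rw [h2, Finsupp.embDomain_comapDomain hsupp] at h1
    simpa using h1
  · intro h
    ext x
    have h2 : coeff x (kap i f) =
        coeff (Finsupp.embDomain (Function.Embedding.subtype (fun l : Fin 3 => i ≤ (l : ℕ))) x) f :=
      coeff_killCompl _ _
    rw [h2, h]
    · simp
    · intro l hl
      rw [Finsupp.embDomain_of_notMem_range]
      rintro ⟨⟨m, hm⟩, rfl⟩
      simp at hl
      omega

/-- chain of primes -/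
noncomputable def Dat.P (D : Dat k ι) (j : ι) (i : ℕ) : PrimeSpectrum D.A :=
  ⟨RingHom.ker ((kap i).comp (D.pr j)),
    have : IsDomain (MvPowerSeries {l : Fin 3 // i ≤ (l : ℕ)} ℂ) := NoZeroDivisors.to_isDomain _
    RingHom.ker_isPrime _⟩

theorem theta_X (i : Fin 3) : theta k (X i) = (X i : S) ^ 4 := by
  simp [theta]

theorem Dat.P_lt (j : ι) {i : ℕ} (hi : i < 3) : D.P j i < D.P j (i + 1) := by
  rw [← PrimeSpectrum.asIdeal_lt_asIdeal]
  refine lt_of_le_of_ne ?_ ?_
  · intro f hf
    have h1 : kap i (D.pr j f) = 0 := hf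
    show kap (i + 1) (D.pr j f) = 0
    rw [kap_eq_zero_iff] at h1 ⊢
    exact fun a ha => h1 a (fun l hl => ha l (by omega))
  · intro h
    have h1 : D.th (X ⟨i, hi⟩) ∈ (D.P j (i + 1)).asIdeal := by
      show kap (i + 1) (D.pr j (D.th (X ⟨i, hi⟩))) = 0
      rw [kap_eq_zero_iff]
      intro a ha
      rw [Dat.pr_apply, Dat.th_apply, theta_X, coeff_X_pow, if_neg]
      rintro rfl
      have := ha ⟨i, hi⟩ (by simp)
      simp at this
    rw [← h] at h1
    have h2 : kap i (D.pr j (D.th (X ⟨i, hi⟩))) = 0 := h1
    rw [kap_eq_zero_iff] at h2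
    have h3 := h2 (Finsupp.single ⟨i, hi⟩ 4) (by
      intro l hl
      rw [Finsupp.single_apply, if_neg]
      rintro rfl
      simp at hl)
    rw [Dat.pr_apply, Dat.th_apply, theta_X, coeff_X_pow, if_pos rfl] at h3
    exact one_ne_zero h3

theorem Dat.le_ringKrullDim [h : Nonempty ι] : 3 ≤ ringKrullDim D.A := by
  obtain ⟨j⟩ := h
  let s : LTSeries (PrimeSpectrum D.A) :=
    { length := 3
      toFun := fun i => D.P j i
      step := fun i => by
        have := Dat.P_lt (D := D) j (i := i) (by omega)
        simpa using this }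
  exact Order.LTSeries.length_le_krullDim s

theorem Dat.ringKrullDim_le [Module.Finite k ℂ] [Fintype ι] [Nonempty ι] [IsLocalRing D.A] :
    ringKrullDim D.A ≤ 3 := by
  classical
  have := D.isNoetherianRing
  rw [← IsLocalRing.maximalIdeal_height_eq_ringKrullDim]
  let s : Finset D.A := Finset.univ.image (fun i : Fin 3 => D.th (X i))
  have hs : s.card ≤ 3 := by
    refine card_image_le.trans ?_
    simp
  have hmin : maximalIdeal D.A ∈ (Ideal.span (s : Set D.A)).minimalPrimes := by
    refine ⟨⟨inferInstance, ?_⟩, ?_⟩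
    · rw [Ideal.span_le]
      intro x hx
      simp only [s, coe_image, coe_univ, Set.image_univ, Set.mem_range] at hx
      obtain ⟨i, rfl⟩ := hx
      have j := Classical.arbitrary ι
      show _ ∈ maximalIdeal D.A
      rw [Dat.mem_maximalIdeal j, Dat.th_apply, theta_X]
      simp
    · rintro Q ⟨hQ, hsQ⟩ _
      have hQ' : Q.IsPrime := hQ
      have hint : D.th.IsIntegral := D.th_finite.to_isIntegral
      have hle : Ideal.span (Set.range X) ≤ Q.comap D.th := by
        rw [Ideal.span_le]
        rintro _ ⟨i, rfl⟩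
        show D.th (X i) ∈ Q
        apply hsQ
        apply Ideal.subset_span
        simp [s]
      have hmax : (Ideal.span (Set.range X) : Ideal (MvPowerSeries (Fin 3) k)).IsMaximal := by
        have : Ideal.span (Set.range X) = RingHom.ker (constantCoeff (σ := Fin 3) (R := k)) := by
          apply le_antisymm
          · rw [Ideal.span_le]
            rintro _ ⟨i, rfl⟩
            show constantCoeff (X i) = 0
            simp
          · intro f hf
            have hf' : constantCoeff f = 0 := hf
            show f ∈ mS k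
            rw [mS_eq]
            intro a ha
            have : a = 0 := by
              ext i
              simp [wdeg] at ha
              fin_cases i <;> simp <;> omega
            rw [this, coeff_zero_eq_constantCoeff_apply, hf']
        rw [this]
        apply RingHom.ker_isMaximal_of_surjective
        intro c
        exact ⟨MvPowerSeries.C c, constantCoeff_C c⟩
      have hQc : (Q.comap D.th).IsMaximal := by
        have hne : Q.comap D.th ≠ ⊤ := (Ideal.IsPrime.comap D.th).ne_top
        rw [← hmax.eq_of_le hne hle]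
        exact hmax
      have hQm : Q.IsMaximal := Ideal.isMaximal_of_isIntegral_of_isMaximal_comap' D.th hint Q hQc
      rw [IsLocalRing.eq_maximalIdeal hQm]
  have h1 := Ideal.height_le_card_of_mem_minimalPrimes_span_finset hmin
  have h2 : (maximalIdeal D.A).height ≤ 3 := h1.trans (by exact_mod_cast hs)
  exact WithBot.coe_le_coe.mpr h2

theorem Dat.ringKrullDim_eq [Module.Finite k ℂ] [Fintype ι] [Nonempty ι] [IsLocalRing D.A] :
    ringKrullDim D.A = 3 :=
  le_antisymm D.ringKrullDim_le D.le_ringKrullDim

end Pool.Agent.Lib.MP_69a698_al
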