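import Pool.Agent.Lib.MP_69a698_al.Cx

/-! # Properties of the extension -/

open MvPowerSeries Finset IsLocalRing
open scoped TensorProduct

namespace Pool.Agent.Lib.MP_69a698_al

universe u

theorem free_of_pair {R R' : Type} [CommRing R] [CommRing R'] [Algebra R R'] (t : R')
    (hs : ∀ x : R', ∃ a b : R, algebraMap R R' a + t * algebraMap R R' b = x)
    (hi : ∀ a b : R, algebraMap R R' a + t * algebraMap R R' b = 0 → a = 0 ∧ b = 0) :
    Module.Free R R' ∧ Module.Finite R R' := by
  let f : (R × R) →ₗ[R] R' := LinearMap.coprod (Algebra.linearMap R R')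
    ((LinearMap.mulLeft R t).comp (Algebra.linearMap R R'))
  have hf : ∀ p : R × R, f p = algebraMap R R' p.1 + t * algebraMap R R' p.2 := fun p => by
    simp [f]
  have hinj : Function.Injective f := by
    rw [← LinearMap.ker_eq_bot, LinearMap.ker_eq_bot']
    intro p hp
    rw [hf] at hp
    obtain ⟨h1, h2⟩ := hi _ _ hp
    exact Prod.ext h1 h2
  have hsurj : Function.Surjective f := by
    intro x
    obtain ⟨a, b, h⟩ := hs x
    exact ⟨(a, b), by rw [hf, h]⟩
  exact ⟨Module.Free.of_equiv (LinearEquiv.ofBijective f ⟨hinj, hsurj⟩),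
    Module.Finite.of_surjective f hsurj⟩

theorem reduced_of_separable {k k' : Type} [Field k] [Field k'] [Algebra k k']
    [Algebra.IsSeparable k k'] [Module.Finite k k'] (L : Type u) [Field L] [Algebra k L] :
    IsReduced (L ⊗[k] k') := by
  have h1 : Algebra.FormallyUnramified k k' := by
    rw [Algebra.FormallyUnramified.iff_isSeparable]
    infer_instance
  exact Algebra.FormallyUnramified.isReduced_of_field L (L ⊗[k] k')

theorem reduced_of_separable' {k k' : Type} [Field k] [Field k'] [Algebra k k']
    [Algebra.IsSeparable k k'] [Module.Finite k k'] (L : Type u) [Field L] [Algebra k L] :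
    IsReduced (k' ⊗[k] L) := by
  have h := reduced_of_separable (k := k) (k' := k') L
  exact isReduced_of_injective (Algebra.TensorProduct.comm k k' L : k' ⊗[k] L →ₐ[k] L ⊗[k] k')
    (Algebra.TensorProduct.comm k k' L).injective

theorem separable_residue {R R' : Type} [CommRing R] [CommRing R'] [IsLocalRing R]
    [IsLocalRing R'] [Algebra R R'] [IsLocalHom (algebraMap R R')] [Module.Finite R R']
    [Algebra ℝ R] : Algebra.IsSeparable (ResidueField R) (ResidueField R') := by
  have h1 : CharZero (ResidueField R) :=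
    charZero_of_injective_algebraMap (algebraMap ℝ (ResidueField R)).injective
  infer_instance

/-- the element `i` -/
noncomputable def II (ι : Type) : (D2 ι).A := algebraMap ℂ (D2 ι).A Complex.I

theorem II_apply (ι : Type) (j : Option ι ⊕ Option ι) :
    (II ι).1 j = MvPowerSeries.C Complex.I := by
  rw [← algebraMap_complex]; rfl

theorem CI_mul_self : (MvPowerSeries.C Complex.I : S) * MvPowerSeries.C Complex.I = -1 := by
  rw [← map_mul, Complex.I_mul_I, map_neg, map_one]

theorem inc_add_zero (ι : Type) (a b : (D1 ι).A) (h : inc ι a + II ι * inc ι b = 0) :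
    a = 0 ∧ b = 0 := by
  have h1 : ∀ j, a.1 j + MvPowerSeries.C Complex.I * b.1 j = 0 := by
    intro j
    have := congrFun (congrArg Subtype.val h) (Sum.inl j)
    rw [← II_apply ι (Sum.inl j)]
    exact this
  have h2 : ∀ j, a.1 j - MvPowerSeries.C Complex.I * b.1 j = 0 := by
    intro j
    have h3 : cj (a.1 j) + MvPowerSeries.C Complex.I * cj (b.1 j) = 0 := by
      have := congrFun (congrArg Subtype.val h) (Sum.inr j)
      rw [← II_apply ι (Sum.inr j)]
      exact this
    have h4 := congrArg cj h3
    rw [map_add, map_mul, cj_cj, cj_cj, cj_C, map_zero] at h4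
    have h5 : star Complex.I = -Complex.I := Complex.conj_I
    rw [h5, map_neg] at h4
    linear_combination h4
  have h3 : ∀ j, a.1 j = 0 := by
    intro j
    have h4 : (2 : S) * a.1 j = 0 := by linear_combination h1 j + h2 j
    have h5 : (2 : S) ≠ 0 := by
      intro h
      have h6 := congrArg (constantCoeff (σ := Fin 3) (R := ℂ)) h
      rw [map_ofNat, map_zero] at h6
      norm_num at h6
    exact (mul_eq_zero.mp h4).resolve_left h5
  have h4 : ∀ j, b.1 j = 0 := by
    intro j
    have h5 := h1 j
    rw [h3 j, zero_add] at h5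
    have h6 : b.1 j = -(MvPowerSeries.C Complex.I * (MvPowerSeries.C Complex.I * b.1 j)) := by
      rw [← mul_assoc, CI_mul_self]; ring
    rw [h6, h5, mul_zero, neg_zero]
  exact ⟨Subtype.ext (funext h3), Subtype.ext (funext h4)⟩

theorem inc_surj (ι : Type) (x : (D2 ι).A) :
    inc ι (rp ι (1 / 2) x) + II ι * inc ι (rp ι (-Complex.I / 2) x) = x := by
  have e1 : (MvPowerSeries.C (1 / 2 : ℂ) : S) + MvPowerSeries.C (1 / 2 : ℂ) = 1 := by
    rw [← map_add]; norm_num
  have e2 : (MvPowerSeries.C Complex.I : S) * MvPowerSeries.C (-Complex.I / 2) =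
      MvPowerSeries.C (1 / 2 : ℂ) := by
    rw [← map_mul]
    congr 1
    rw [mul_div_assoc', mul_neg, Complex.I_mul_I]
    ring
  have e3 : (MvPowerSeries.C Complex.I : S) * MvPowerSeries.C (star (-Complex.I / 2)) =
      -MvPowerSeries.C (1 / 2 : ℂ) := by
    rw [← map_mul, ← map_neg]
    congr 1
    have : star (-Complex.I / 2) = Complex.I / 2 := by
      have : (starRingEnd ℂ) (-Complex.I / 2) = Complex.I / 2 := by
        rw [map_div₀, map_neg, Complex.conj_I, neg_neg, map_ofNat]
      exact this
    rw [this, mul_div_assoc', Complex.I_mul_I]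
    ring
  have e4 : star (1 / 2 : ℂ) = 1 / 2 := by
    have : (starRingEnd ℂ) (1 / 2 : ℂ) = 1 / 2 := by
      rw [map_div₀, map_one, map_ofNat]
    exact this
  have e5 : star (star (-Complex.I / 2)) = -Complex.I / 2 := star_star _
  apply Subtype.ext
  funext j
  cases j with
  | inl j =>
    show (inc ι (rp ι (1 / 2) x)).1 (Sum.inl j) + (II ι).1 (Sum.inl j) *
      (inc ι (rp ι (-Complex.I / 2) x)).1 (Sum.inl j) = _
    rw [inc_inl, inc_inl, rp_apply, rp_apply, II_apply, e4]
    linear_combination (x.1 (Sum.inl j)) * e1 + (x.1 (Sum.inl j)) * e2 +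
      cj (x.1 (Sum.inr j)) * e3
  | inr j =>
    show (inc ι (rp ι (1 / 2) x)).1 (Sum.inr j) + (II ι).1 (Sum.inr j) *
      (inc ι (rp ι (-Complex.I / 2) x)).1 (Sum.inr j) = _
    rw [inc_inr, inc_inr, rp_apply, rp_apply, II_apply]
    simp only [map_add, map_mul, cj_C, cj_cj, e4, e5]
    linear_combination (x.1 (Sum.inr j)) * e1 + (x.1 (Sum.inr j)) * e2 +
      cj (x.1 (Sum.inl j)) * e3

theorem isLocalHom_inc (ι : Type) : IsLocalHom (inc ι) where
  map_nonunit := by
    intro a ha
    rw [Dat.isUnit_iff (Sum.inl none)] at ha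
    rw [Dat.isUnit_iff none]
    exact ha

theorem map_maximalIdeal (ι : Type) [IsLocalRing (D1 ι).A] [IsLocalRing (D2 ι).A] :
    (maximalIdeal (D1 ι).A).map (inc ι) = maximalIdeal (D2 ι).A := by
  apply le_antisymm
  · rw [Ideal.map_le_iff_le_comap]
    intro a ha
    rw [Ideal.mem_comap, Dat.mem_maximalIdeal (Sum.inl none)]
    rw [Dat.mem_maximalIdeal none] at ha
    exact ha
  · intro x hx
    have h1 : ∀ c, rp ι c x ∈ maximalIdeal (D1 ι).A := by
      intro c
      rw [Dat.mem_maximalIdeal none, rp_apply, map_add, map_mul, map_mul,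
        (Dat.mem_maximalIdeal (Sum.inl none)).mp hx, mul_zero, zero_add]
      have h2 := (Dat.mem_maximalIdeal (Sum.inr none)).mp hx
      have h3 : constantCoeff (cj (x.1 (Sum.inr none))) = 0 := by
        rw [← coeff_zero_eq_constantCoeff_apply, coeff_cj, coeff_zero_eq_constantCoeff_apply, h2,
          star_zero]
      rw [h3, mul_zero]
    rw [← inc_surj ι x]
    exact add_mem (Ideal.mem_map_of_mem _ (h1 _))
      (Ideal.mul_mem_left _ _ (Ideal.mem_map_of_mem _ (h1 _)))

end Pool.Agent.Lib.MP_69a698_al
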