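import Mathlib

/-! # Length over a local algebra versus dimension over a coefficient field -/

open IsLocalRing

namespace Pool.Agent.Lib.MP_69a698_al

variable {A : Type} [CommRing A] [IsLocalRing A] {k : Type} [Field k] [Algebra k A]

theorem length_simple (hres : ∀ a : A, ∃ c : k, a - algebraMap k A c ∈ maximalIdeal A)
    {M : Type} [AddCommGroup M] [Module A M] [Module k M] [IsScalarTower k A M]
    [IsSimpleModule A M] : Module.length k M = 1 := by
  have hnt : Nontrivial M := IsSimpleModule.nontrivial A M
  obtain ⟨x, hx⟩ := exists_ne (0 : M)
  have hker : LinearMap.ker (LinearMap.toSpanSingleton A M x) = maximalIdeal A :=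
    IsLocalRing.eq_maximalIdeal (IsSimpleModule.ker_toSpanSingleton_isMaximal A hx)
  have hsurj : Function.Surjective (LinearMap.toSpanSingleton k M x) := by
    intro y
    obtain ⟨a, ha⟩ := IsSimpleModule.toSpanSingleton_surjective A hx y
    obtain ⟨c, hc⟩ := hres a
    refine ⟨c, ?_⟩
    rw [← hker, LinearMap.mem_ker, map_sub, ha, sub_eq_zero] at hc
    rw [hc, LinearMap.toSpanSingleton_apply, LinearMap.toSpanSingleton_apply,
      algebraMap_smul]
  have h1 := Module.length_le_of_surjective _ hsurj
  rw [Module.length_eq_finrank k k, Module.finrank_self] at h1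
  apply le_antisymm (by simpa using h1)
  have h2 : 0 < Module.length k M := Module.length_pos_iff.mpr hnt
  exact Order.one_le_iff_pos.mpr h2

theorem length_of_finiteLength (hres : ∀ a : A, ∃ c : k, a - algebraMap k A c ∈ maximalIdeal A)
    {M : Type} [AddCommGroup M] [Module A M] (h : IsFiniteLength A M) :
    ∀ [Module k M] [IsScalarTower k A M], Module.length A M = Module.length k M := by
  induction h with
  | of_subsingleton =>
    intro _ _
    rw [Module.length_eq_zero, Module.length_eq_zero]
  | @of_simple_quotient M _ _ N _ _ ih =>
    intro _ _
    have h1 : Module.length A M = Module.length A N + Module.length A (M ⧸ N) :=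
      Module.length_eq_add_of_exact N.subtype N.mkQ N.injective_subtype N.mkQ_surjective
        (LinearMap.exact_subtype_mkQ N)
    have h2 : Module.length k M = Module.length k N + Module.length k (M ⧸ N) :=
      Module.length_eq_add_of_exact (N.subtype.restrictScalars k) (N.mkQ.restrictScalars k)
        N.injective_subtype N.mkQ_surjective (LinearMap.exact_subtype_mkQ N)
    rw [h1, h2, ih, length_simple hres (M := M ⧸ N), Module.length_eq_one A (M ⧸ N)]

theorem length_eq_of_residue
    (hres : ∀ a : A, ∃ c : k, a - algebraMap k A c ∈ maximalIdeal A)
    (M : Type) [AddCommGroup M] [Module A M] [Module k M] [IsScalarTower k A M] :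
    Module.length A M = Module.length k M := by
  by_cases h : IsFiniteLength A M
  · exact length_of_finiteLength hres h
  · have h1 : Module.length A M = ⊤ := by
      by_contra h2
      exact h (Module.length_ne_top_iff.mp h2)
    have h2 := Submodule.length_le_length_restrictScalars (R := A) (M := M) k ⊤
    rw [Module.length_top, h1, top_le_iff] at h2
    rw [h1, ← h2]
    exact (Module.length_top (R := k) (M := M))

end Pool.Agent.Lib.MP_69a698_al
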