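import Mathlib

/-!
# Leading exponents of ideals in a power series ring

`Ex J` is the set of lexicographic leading (minimal) exponents of elements of an ideal `J` of
`K⟦X₀,X₁,X₂⟧`; the length of the quotient by an `𝔪`-primary ideal is the number of exponents
outside `Ex J`.
-/

open MvPowerSeries Finset

namespace Pool.Agent.Lib.MP_69a698_al

variable {K : Type} [Field K]

/-- leading exponents of an ideal -/
def Ex (J : Ideal (MvPowerSeries (Fin 3) K)) : Set (Fin 3 →₀ ℕ) :=
  {a | ∃ f ∈ J, lexOrder f = ((toLex a : Lex (Fin 3 →₀ ℕ)) : WithTop (Lex (Fin 3 →₀ ℕ)))}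

theorem lexOrder_monomial_one (a : Fin 3 →₀ ℕ) :
    lexOrder (monomial a (1 : K)) =
      ((toLex a : Lex (Fin 3 →₀ ℕ)) : WithTop (Lex (Fin 3 →₀ ℕ))) := by
  apply le_antisymm
  · apply lexOrder_le_of_coeff_ne_zero
    simp
  · rw [le_lexOrder_iff]
    intro d hd
    rw [coeff_monomial, if_neg]
    rintro rfl
    exact lt_irrefl _ hd

theorem Ex_mono {J J' : Ideal (MvPowerSeries (Fin 3) K)} (h : J ≤ J') : Ex J ⊆ Ex J' := by
  rintro a ⟨f, hf, ha⟩
  exact ⟨f, h hf, ha⟩

theorem Ex_mul {J J' : Ideal (MvPowerSeries (Fin 3) K)} {a b : Fin 3 →₀ ℕ}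
    (ha : a ∈ Ex J) (hb : b ∈ Ex J') : a + b ∈ Ex (J * J') := by
  obtain ⟨f, hf, ha⟩ := ha
  obtain ⟨g, hg, hb⟩ := hb
  refine ⟨f * g, Ideal.mul_mem_mul hf hg, ?_⟩
  rw [lexOrder_mul, ha, hb]
  rfl

theorem Ex_top (a : Fin 3 →₀ ℕ) : a ∈ Ex (⊤ : Ideal (MvPowerSeries (Fin 3) K)) :=
  ⟨monomial a 1, trivial, lexOrder_monomial_one a⟩

theorem Ex_add {J : Ideal (MvPowerSeries (Fin 3) K)} {a : Fin 3 →₀ ℕ} (b : Fin 3 →₀ ℕ)
    (ha : a ∈ Ex J) : b + a ∈ Ex J := by
  have := Ex_mul (Ex_top (K := K) b) ha
  simpa using this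

theorem Ex_pow {J : Ideal (MvPowerSeries (Fin 3) K)} {a : Fin 3 →₀ ℕ} (n : ℕ)
    (ha : a ∈ Ex J) : n • a ∈ Ex (J ^ n) := by
  induction n with
  | zero => simpa using Ex_top (K := K) 0
  | succ n ih =>
    rw [pow_succ, succ_nsmul]
    exact Ex_mul ih ha

/-- `Σ kᵢ vᵢ ∈ Ex (J ^ Σ kᵢ)` -/
theorem Ex_sum {J : Ideal (MvPowerSeries (Fin 3) K)} {v : Fin 3 → (Fin 3 →₀ ℕ)}
    (hv : ∀ i, v i ∈ Ex J) (k : Fin 3 → ℕ) : ∑ i, k i • v i ∈ Ex (J ^ ∑ i, k i) := by
  simp only [Fin.sum_univ_three, pow_add]
  exact Ex_mul (Ex_mul (Ex_pow _ (hv 0)) (Ex_pow _ (hv 1))) (Ex_pow _ (hv 2))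

/-- total degree -/
def deg (a : Fin 3 →₀ ℕ) : ℕ := a 0 + a 1 + a 2

/-- the finite set of exponents of total degree `< N` -/
noncomputable def lowDeg (N : ℕ) : Finset (Fin 3 →₀ ℕ) :=
  ((Finset.univ : Finset (Fin 3 → Fin N)).image
    (fun f => Finsupp.equivFunOnFinite.symm (fun i => (f i : ℕ)))).filter (fun a => deg a < N)

theorem mem_lowDeg {N : ℕ} {a : Fin 3 →₀ ℕ} : a ∈ lowDeg N ↔ deg a < N := by
  unfold lowDeg
  simp only [Finset.mem_filter, Finset.mem_image, Finset.mem_univ, true_and,
    and_iff_right_iff_imp]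
  intro h
  refine ⟨fun i => ⟨a i, ?_⟩, ?_⟩
  · unfold deg at h
    fin_cases i <;> simp <;> omega
  · ext i
    simp

/-- If all exponents outside the finite set `T` are leading exponents of `J`, and `J` contains all
power series of order at least `N`, then `S/J` has length at most `#T`. -/
theorem length_le_card {J : Ideal (MvPowerSeries (Fin 3) K)} {N : ℕ}
    (hN : ∀ f : MvPowerSeries (Fin 3) K, (∀ a ∈ lowDeg N, coeff a f = 0) → f ∈ J)
    (T : Finset (Fin 3 →₀ ℕ)) (hT : ∀ a, a ∉ T → a ∈ Ex J) :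
    Module.length K (MvPowerSeries (Fin 3) K ⧸ J) ≤ T.card := by
  classical
  let q : MvPowerSeries (Fin 3) K →ₗ[K] MvPowerSeries (Fin 3) K ⧸ J :=
    (Ideal.Quotient.mkₐ K J).toLinearMap
  have hq0 : ∀ f ∈ J, q f = 0 := fun f hf => Ideal.Quotient.eq_zero_iff_mem.mpr hf
  have hqs : Function.Surjective q := Ideal.Quotient.mk_surjective
  let v : T → MvPowerSeries (Fin 3) K ⧸ J := fun a => q (monomial a.1 1)
  let A : MvPowerSeries (Fin 3) K → Finset (Fin 3 →₀ ℕ) := fun f =>
    (lowDeg N).filter (fun a => ∃ b ∈ lowDeg N, coeff b f ≠ 0 ∧ toLex b ≤ toLex a)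
  have key : ∀ n : ℕ, ∀ f : MvPowerSeries (Fin 3) K, (A f).card = n →
      q f ∈ Submodule.span K (Set.range v) := by
    intro n
    induction n using Nat.strong_induction_on with
    | _ n ih =>
      intro f hf
      by_cases h0 : ∀ a ∈ lowDeg N, coeff a f = 0
      · rw [hq0 f (hN f h0)]
        exact zero_mem _
      · push Not at h0
        have hne : ((lowDeg N).filter (fun a => coeff a f ≠ 0)).Nonempty := by
          obtain ⟨a, ha, hfa⟩ := h0
          exact ⟨a, Finset.mem_filter.mpr ⟨ha, hfa⟩⟩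
        obtain ⟨b, hb, hbmin⟩ := Finset.exists_min_image _ (fun a => toLex a) hne
        rw [Finset.mem_filter] at hb
        -- reduction step
        have red : ∀ h : MvPowerSeries (Fin 3) K,
            lexOrder h = ((toLex b : Lex (Fin 3 →₀ ℕ)) : WithTop (Lex (Fin 3 →₀ ℕ))) →
            (A (f - (coeff b f / coeff b h) • h)).card < n := by
          intro h hh
          rw [← hf]
          apply Finset.card_lt_card
          have hcb : coeff b h ≠ 0 := coeff_ne_zero_of_lexOrder hh.symm
          have hz : ∀ a ∈ lowDeg N, coeff a (f - (coeff b f / coeff b h) • h) ≠ 0 →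
              toLex b < toLex a := by
            intro a ha hne
            by_contra hlt
            push Not at hlt
            rcases hlt.lt_or_eq with hlt | heq
            · apply hne
              rw [map_sub, MvPowerSeries.coeff_smul,
                coeff_eq_zero_of_lt_lexOrder (φ := h) (d := a) (by rw [hh]; exact_mod_cast hlt)]
              have : coeff a f = 0 := by
                by_contra hfa
                exact absurd (hbmin a (Finset.mem_filter.mpr ⟨ha, hfa⟩)) (not_le.mpr hlt)
              simp [this]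
            · apply hne
              have : a = b := toLex.injective heq
              subst this
              rw [map_sub, MvPowerSeries.coeff_smul]
              field_simp
              simp
          rw [Finset.ssubset_iff_of_subset]
          · refine ⟨b, ?_, ?_⟩
            · simp only [A, Finset.mem_filter]
              exact ⟨hb.1, b, hb.1, hb.2, le_rfl⟩
            · simp only [A, Finset.mem_filter, not_and, not_exists]
              intro _ c hc hc2
              exact fun h3 => absurd h3 (not_le.mpr (hz c hc hc2))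
          · intro a ha
            simp only [A, Finset.mem_filter] at ha ⊢
            obtain ⟨ha1, c, hc1, hc2, hc3⟩ := ha
            exact ⟨ha1, b, hb.1, hb.2, (hz c hc1 hc2).le.trans hc3⟩
        by_cases hbT : b ∈ T
        · have h1 := ih _ (red (monomial b 1) (lexOrder_monomial_one b)) _ rfl
          rw [map_sub, map_smul] at h1
          have h2 : q (monomial b 1) ∈ Submodule.span K (Set.range v) :=
            Submodule.subset_span ⟨⟨b, hbT⟩, rfl⟩
          have h3 := Submodule.add_mem _ h1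
            (Submodule.smul_mem _ (coeff b f / coeff b (monomial b (1 : K))) h2)
          simpa using h3
        · obtain ⟨h, hhJ, hh⟩ := hT b hbT
          have h1 := ih _ (red h hh) _ rfl
          rw [map_sub, map_smul, hq0 h hhJ] at h1
          simpa using h1
  have hspan : Submodule.span K (Set.range v) = ⊤ := by
    rw [eq_top_iff]
    intro x _
    obtain ⟨f, rfl⟩ := hqs x
    exact key _ f rfl
  have : Module.Finite K (MvPowerSeries (Fin 3) K ⧸ J) :=
    ⟨⟨(Set.finite_range v).toFinset, by simpa using hspan⟩⟩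
  rw [Module.length_eq_finrank]
  have := finrank_le_of_span_eq_top hspan
  simp only [Fintype.card_coe] at this
  exact_mod_cast this

/-- Exponents outside `Ex J` are linearly independent modulo `J`. -/
theorem card_le_length {J : Ideal (MvPowerSeries (Fin 3) K)}
    (T : Finset (Fin 3 →₀ ℕ)) (hT : ∀ a ∈ T, a ∉ Ex J) :
    (T.card : ℕ∞) ≤ Module.length K (MvPowerSeries (Fin 3) K ⧸ J) := by
  classical
  let q : MvPowerSeries (Fin 3) K →ₗ[K] MvPowerSeries (Fin 3) K ⧸ J :=
    (Ideal.Quotient.mkₐ K J).toLinearMap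
  let Φ : (T → K) →ₗ[K] (MvPowerSeries (Fin 3) K) :=
    ∑ a : T, (LinearMap.toSpanSingleton K _ (monomial a.1 (1 : K))).comp (LinearMap.proj a)
  have hΦ : ∀ (g : T → K) (b : T), coeff b.1 (Φ g) = g b := by
    intro g b
    simp only [Φ, LinearMap.sum_apply, LinearMap.comp_apply, LinearMap.proj_apply,
      LinearMap.toSpanSingleton_apply, map_sum, MvPowerSeries.coeff_smul, coeff_monomial]
    rw [Finset.sum_eq_single b]
    · simp
    · intro c _ hc
      rw [if_neg, mul_zero]
      intro h
      exact hc (Subtype.ext h.symm)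
    · simp
  have hΦ0 : ∀ (g : T → K) (b : Fin 3 →₀ ℕ), b ∉ T → coeff b (Φ g) = 0 := by
    intro g b hb
    simp only [Φ, LinearMap.sum_apply, LinearMap.comp_apply, LinearMap.proj_apply,
      LinearMap.toSpanSingleton_apply, map_sum, MvPowerSeries.coeff_smul, coeff_monomial]
    apply Finset.sum_eq_zero
    intro c _
    rw [if_neg, mul_zero]
    rintro rfl
    exact hb c.2
  have hinj : Function.Injective (q ∘ₗ Φ) := by
    rw [← LinearMap.ker_eq_bot, LinearMap.ker_eq_bot']
    intro g hg
    have hgJ : Φ g ∈ J := Ideal.Quotient.eq_zero_iff_mem.mp hg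
    by_contra hne
    have hΦne : Φ g ≠ 0 := by
      intro h
      apply hne
      funext b
      rw [← hΦ g b, h]
      simp
    obtain ⟨d, hd⟩ := exists_finsupp_eq_lexOrder_of_ne_zero hΦne
    have hdc := coeff_ne_zero_of_lexOrder hd.symm
    have hdT : d ∈ T := by
      by_contra h
      exact hdc (hΦ0 g d h)
    exact hT d hdT ⟨Φ g, hgJ, hd⟩
  have := Module.length_le_of_injective (q ∘ₗ Φ) hinj
  rw [Module.length_eq_finrank K (T → K)] at this
  simpa using this

end Pool.Agent.Lib.MP_69a698_al
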