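import Pool.Agent.Lib.MP_69a698_al.Defs

/-! # Limits of cubic quotients in `ℝ≥0∞` -/

open Filter
open scoped ENNReal Topology

namespace Pool.Agent.Lib.MP_69a698_al

theorem tendsto_cubic (A : ℕ) (c : ℕ) :
    Tendsto (fun n : ℕ => (A : ℝ≥0∞) * ((n : ℝ≥0∞) + c) ^ 3 / (n : ℝ≥0∞) ^ 3) atTop
      (𝓝 (A : ℝ≥0∞)) := by
  have h1 : Tendsto (fun n : ℕ => (A : ℝ) * (1 + (c : ℝ) / (n : ℝ)) ^ 3) atTop (𝓝 (A : ℝ)) := by
    have h2 : Tendsto (fun n : ℕ => (c : ℝ) / (n : ℝ)) atTop (𝓝 0) :=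
      tendsto_const_div_atTop_nhds_zero_nat (c : ℝ)
    have h3 : Tendsto (fun n : ℕ => (A : ℝ) * (1 + (c : ℝ) / (n : ℝ)) ^ 3) atTop
        (𝓝 ((A : ℝ) * (1 + 0) ^ 3)) :=
      (((tendsto_const_nhds (x := (1 : ℝ))).add h2).pow 3).const_mul _
    simpa using h3
  have h2 := ENNReal.tendsto_ofReal h1
  rw [ENNReal.ofReal_natCast] at h2
  refine h2.congr' ?_
  filter_upwards [eventually_gt_atTop 0] with n hn
  have hn' : (0 : ℝ) < n := by exact_mod_cast hn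
  have e : (A : ℝ) * (1 + (c : ℝ) / (n : ℝ)) ^ 3 = (A : ℝ) * ((n : ℝ) + c) ^ 3 / (n : ℝ) ^ 3 := by
    field_simp
  rw [e, ENNReal.ofReal_div_of_pos (by positivity), ENNReal.ofReal_mul (by positivity),
    ENNReal.ofReal_pow (by positivity), ENNReal.ofReal_pow (by positivity),
    ENNReal.ofReal_add (by positivity) (by positivity), ENNReal.ofReal_natCast,
    ENNReal.ofReal_natCast, ENNReal.ofReal_natCast]

/-- upper estimate of a limit superior -/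
theorem limsup_le_cubic (f : ℕ → ℝ≥0∞) (A c : ℕ)
    (h : ∀ n : ℕ, 0 < n → 6 * f n ≤ (A : ℝ≥0∞) * ((n : ℝ≥0∞) + c) ^ 3) :
    limsup (fun n : ℕ => 6 * f n / (n : ℝ≥0∞) ^ 3) atTop ≤ (A : ℝ≥0∞) := by
  refine le_trans ?_ (tendsto_cubic A c).limsup_eq.le
  apply limsup_le_limsup
  · filter_upwards [eventually_gt_atTop 0] with n hn
    exact ENNReal.div_le_div_right (h n hn) _
  · isBoundedDefault
  · isBoundedDefault

/-- lower estimate of a limit superior -/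
theorem le_limsup_cubic (f : ℕ → ℝ≥0∞) (A B : ℕ)
    (h : ∀ n : ℕ, (A : ℝ≥0∞) * (((n - 2 : ℕ) : ℝ≥0∞)) ^ 3 ≤ 6 * f n + B) :
    (A : ℝ≥0∞) ≤ limsup (fun n : ℕ => 6 * f n / (n : ℝ≥0∞) ^ 3) atTop := by
  have h1 : Tendsto (fun n : ℕ => (A : ℝ) * (1 - (2 : ℝ) / (n : ℝ)) ^ 3 - (B : ℝ) / (n : ℝ) ^ 3)
      atTop (𝓝 (A : ℝ)) := by
    have h2 : Tendsto (fun n : ℕ => (2 : ℝ) / (n : ℝ)) atTop (𝓝 0) :=
      tendsto_const_div_atTop_nhds_zero_nat (2 : ℝ)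
    have h3 : Tendsto (fun n : ℕ => (A : ℝ) * (1 - (2 : ℝ) / (n : ℝ)) ^ 3) atTop
        (𝓝 ((A : ℝ) * (1 - 0) ^ 3)) :=
      (((tendsto_const_nhds (x := (1 : ℝ))).sub h2).pow 3).const_mul _
    have h4 : Tendsto (fun n : ℕ => (B : ℝ) / (n : ℝ) ^ 3) atTop (𝓝 0) := by
      apply Tendsto.div_atTop tendsto_const_nhds
      exact (tendsto_pow_atTop (by norm_num)).comp tendsto_natCast_atTop_atTop
    have h5 := h3.sub h4
    simpa using h5
  have h2 := ENNReal.tendsto_ofReal h1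
  rw [ENNReal.ofReal_natCast] at h2
  rw [← h2.limsup_eq]
  apply limsup_le_limsup
  · filter_upwards [eventually_gt_atTop 2] with n hn
    have hn' : (0 : ℝ) < n := by
      have : 0 < n := by omega
      exact_mod_cast this
    have hn2 : ((n - 2 : ℕ) : ℝ) = (n : ℝ) - 2 := by
      rw [Nat.cast_sub hn.le]; norm_num
    have e : (A : ℝ) * (1 - (2 : ℝ) / (n : ℝ)) ^ 3 - (B : ℝ) / (n : ℝ) ^ 3 =
        ((A : ℝ) * ((n - 2 : ℕ) : ℝ) ^ 3 - B) / (n : ℝ) ^ 3 := by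
      rw [hn2]
      field_simp
    rw [e, ENNReal.ofReal_div_of_pos (by positivity), ENNReal.ofReal_pow (by positivity),
      ENNReal.ofReal_natCast]
    gcongr
    rw [ENNReal.ofReal_sub _ (by positivity), tsub_le_iff_right,
      ENNReal.ofReal_mul (by positivity), ENNReal.ofReal_pow (by positivity),
      ENNReal.ofReal_natCast, ENNReal.ofReal_natCast, ENNReal.ofReal_natCast]
    exact h n
  · isBoundedDefault
  · isBoundedDefault

end Pool.Agent.Lib.MP_69a698_al
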