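import Mathlib

/-! # Linear algebra lemmas about lengths of vector spaces -/

namespace Pool.Agent.Lib.MP_69a698_al

section
variable {k : Type} [Field k] {M N Q : Type} [AddCommGroup M] [Module k M]
  [AddCommGroup N] [Module k N] [AddCommGroup Q] [Module k Q]

theorem length_le_of_ker_le (f : M →ₗ[k] N) (g : M →ₗ[k] Q) (hg : Function.Surjective g)
    (h : LinearMap.ker f ≤ LinearMap.ker g) : Module.length k Q ≤ Module.length k N := by
  have h1 : Function.Surjective ((LinearMap.ker f).liftQ g h) := by
    intro y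
    obtain ⟨x, rfl⟩ := hg y
    exact ⟨Submodule.Quotient.mk x, rfl⟩
  refine (Module.length_le_of_surjective _ h1).trans ?_
  refine Module.length_le_of_injective ((LinearMap.ker f).liftQ f le_rfl) ?_
  rw [← LinearMap.ker_eq_bot]
  exact Submodule.ker_liftQ_eq_bot _ _ _ le_rfl

/-- additivity for two nested quotients -/
theorem length_two (g₁ : M →ₗ[k] N) (g₂ : M →ₗ[k] Q) (h₁ : Function.Surjective g₁)
    (h₂ : Function.Surjective g₂) (h : LinearMap.ker g₁ ≤ LinearMap.ker g₂) :
    Module.length k N = Module.length k ((LinearMap.ker g₂).map g₁) + Module.length k Q := by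
  let e := LinearMap.quotKerEquivOfSurjective g₁ h₁
  let φ : N →ₗ[k] Q := ((LinearMap.ker g₁).liftQ g₂ h).comp e.symm.toLinearMap
  have hφ : ∀ x, φ (g₁ x) = g₂ x := by
    intro x
    have : e (Submodule.Quotient.mk x) = g₁ x := rfl
    rw [← this]
    simp only [φ, LinearMap.comp_apply, LinearEquiv.coe_coe, LinearEquiv.symm_apply_apply]
    rfl
  apply Module.length_eq_add_of_exact ((LinearMap.ker g₂).map g₁).subtype φ
    (Submodule.injective_subtype _)
  · intro y
    obtain ⟨x, rfl⟩ := h₂ y
    exact ⟨g₁ x, hφ x⟩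
  · intro y
    obtain ⟨x, rfl⟩ := h₁ y
    rw [hφ]
    constructor
    · intro hx
      exact ⟨⟨g₁ x, ⟨x, hx, rfl⟩⟩, rfl⟩
    · rintro ⟨⟨_, ⟨z, hz, rfl⟩⟩, hz'⟩
      have h3 : g₁ z = g₁ x := hz'
      rw [← hφ, ← h3, hφ]
      exact hz

end

theorem length_real_eq (M : Type) [AddCommGroup M] [Module ℂ M] [Module ℝ M]
    [IsScalarTower ℝ ℂ M] : Module.length ℝ M = 2 * Module.length ℂ M := by
  by_cases h : Module.Finite ℂ M
  · have : Module.Finite ℝ M := Module.Finite.trans ℂ M
    rw [Module.length_eq_finrank, Module.length_eq_finrank,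
      ← Module.finrank_mul_finrank ℝ ℂ M, Complex.finrank_real_complex]
    push_cast
    rfl
  · have h1 : Module.length ℂ M = ⊤ := by
      by_contra h2
      have h3 := Module.length_ne_top_iff.mp h2
      rw [isFiniteLength_iff_isNoetherian_isArtinian] at h3
      have := h3.1
      exact h inferInstance
    have h1' : Module.length ℝ M = ⊤ := by
      by_contra h2
      have h3 := Module.length_ne_top_iff.mp h2
      rw [isFiniteLength_iff_isNoetherian_isArtinian] at h3
      have h4 := h3.1
      have : Module.Finite ℝ M := inferInstance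
      exact h (Module.Finite.of_restrictScalars_finite ℝ ℂ M)
    rw [h1, h1']
    rfl

end Pool.Agent.Lib.MP_69a698_al
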