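import Pool.Agent.Lib.MP_69a698_al.Upper
import Pool.Agent.Lib.MP_69a698_al.Length
import Pool.Agent.Lib.MP_69a698_al.Lim

/-! # Upper bound for the Lech–Mumford constant of the real ring -/

open MvPowerSeries Finset IsLocalRing Filter
open scoped ENNReal

namespace Pool.Agent.Lib.MP_69a698_al

/-- the real ring -/
noncomputable abbrev DR : Dat ℝ (Option (Fin 35)) := D1 (Fin 35)

/-- the real ring -/
noncomputable abbrev RR : Subalgebra ℝ (Option (Fin 35) → S) := DR.A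

instance : IsLocalRing RR := Dat.isLocalRing

instance : IsNoetherianRing RR := Dat.isNoetherianRing

theorem dimNat_RR : dimNat RR = 3 := by
  unfold dimNat
  rw [Dat.ringKrullDim_eq]
  rfl

theorem Dat.residue {k : Type} [Field k] [Algebra k ℂ] {ι : Type} (D : Dat k ι) [Nonempty ι]
    [IsLocalRing D.A] (a : D.A) : ∃ c : k, a - algebraMap k D.A c ∈ maximalIdeal D.A := by
  obtain ⟨l, v, hv, h⟩ := id a.2
  have j := Classical.arbitrary ι
  refine ⟨l, ?_⟩
  rw [Dat.mem_maximalIdeal j]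
  have h1 := Dat.constantCoeff_eq hv (h j)
  show constantCoeff (a.1 j - algebraMap k S l) = 0
  rw [map_sub, h1, constantCoeff_algebraMap', sub_self]

/-- elements of the linear part -/
noncomputable def Phi : (Fin 3 → ℂ) →ₗ[ℝ] RR where
  toFun v := ⟨phi (Fin 35) v, Dat.mem_of_U ⟨v, rfl⟩⟩
  map_add' v w := by
    apply Subtype.ext
    exact map_add (phi (Fin 35)) v w
  map_smul' r v := by
    apply Subtype.ext
    exact map_smul (phi (Fin 35)) r v

theorem Phi_mem (v : Fin 3 → ℂ) : Phi v ∈ maximalIdeal RR := by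
  rw [Dat.mem_maximalIdeal none]
  exact constantCoeff_of_mem (show phi (Fin 35) v none ∈ mS ℂ by
    rw [phi_apply]; exact psi_mem _ _ _ _)

theorem C_le : DR.C ≤ maximalIdeal RR := by
  intro x hx
  rw [Dat.mem_maximalIdeal none]
  exact constantCoeff_of_mem (DR.hc1 none (hx none))

/-- the comparison map `ℝ × ℂ³ → R/(I + C)` -/
noncomputable def TT (J : Ideal RR) : (ℝ × (Fin 3 → ℂ)) →ₗ[ℝ] RR ⧸ J :=
  (mkL ℝ J).comp (LinearMap.coprod (Algebra.linearMap ℝ RR) Phi)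

theorem TT_ker {J : Ideal RR} (hJ : J ≤ maximalIdeal RR) {x : ℝ × (Fin 3 → ℂ)}
    (hx : x ∈ LinearMap.ker (TT J)) : x.1 = 0 ∧ Phi x.2 ∈ J := by
  have h1 : algebraMap ℝ RR x.1 + Phi x.2 ∈ J := by
    rw [LinearMap.mem_ker] at hx
    exact (mkL_eq_zero (k := ℝ)).mp hx
  have h2 : x.1 = 0 := by
    have h3 := (maximalIdeal RR).sub_mem (hJ h1) (Phi_mem x.2)
    rw [add_sub_cancel_right, Dat.mem_maximalIdeal none] at h3
    have h4 : constantCoeff (algebraMap ℝ S x.1) = 0 := h3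
    rw [constantCoeff_algebraMap'] at h4
    simpa using h4
  refine ⟨h2, ?_⟩
  rw [h2, map_zero, zero_add] at h1
  exact h1

theorem TT_rank {J : Ideal RR} {m : ℕ} (hm : Module.length ℝ (RR ⧸ J) = m) :
    7 ≤ m + Module.finrank ℝ (LinearMap.ker (TT J)) := by
  have h1 := LinearMap.finrank_range_add_finrank_ker (TT J)
  have h2 : Module.finrank ℝ (ℝ × (Fin 3 → ℂ)) = 7 := by
    rw [Module.finrank_prod, Module.finrank_self, Module.finrank_pi_fintype]
    simp [Complex.finrank_real_complex]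
  have h3 : Module.length ℝ (LinearMap.range (TT J)) ≤ Module.length ℝ (RR ⧸ J) :=
    Module.length_le_of_injective (LinearMap.range (TT J)).subtype
      (Submodule.injective_subtype _)
  rw [hm, Module.length_eq_finrank] at h3
  have h4 : Module.finrank ℝ (LinearMap.range (TT J)) ≤ m := by exact_mod_cast h3
  omega

theorem exists_one {J : Ideal RR} (hJ : J ≤ maximalIdeal RR) {m : ℕ}
    (hm : Module.length ℝ (RR ⧸ J) = m) (h6 : m ≤ 6) : ∃ v, v ≠ 0 ∧ Phi v ∈ J := by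
  have h1 := TT_rank hm
  have h2 : 0 < Module.finrank ℝ (LinearMap.ker (TT J)) := by omega
  have h3 : Nontrivial (LinearMap.ker (TT J)) := Module.nontrivial_of_finrank_pos h2
  obtain ⟨⟨x, hx⟩, hne⟩ := exists_ne (0 : LinearMap.ker (TT J))
  obtain ⟨hx1, hx2⟩ := TT_ker hJ hx
  refine ⟨x.2, ?_, hx2⟩
  intro h0
  apply hne
  apply Subtype.ext
  exact Prod.ext hx1 h0

theorem exists_two {J : Ideal RR} (hJ : J ≤ maximalIdeal RR) {m : ℕ}
    (hm : Module.length ℝ (RR ⧸ J) = m) (h3 : m ≤ 3) :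
    ∃ v w, LinearIndependent ℂ ![v, w] ∧ Phi v ∈ J ∧ Phi w ∈ J := by
  obtain ⟨v, hv, hvJ⟩ := exists_one hJ hm (by omega)
  by_contra hcon
  push Not at hcon
  have h1 := TT_rank hm
  -- the kernel is contained in a two-dimensional space
  let g : ℂ →ₗ[ℝ] (ℝ × (Fin 3 → ℂ)) :=
    (LinearMap.inr ℝ ℝ (Fin 3 → ℂ)).comp ((LinearMap.toSpanSingleton ℂ (Fin 3 → ℂ) v).restrictScalars ℝ)
  have h2 : LinearMap.ker (TT J) ≤ LinearMap.range g := by
    intro x hx
    obtain ⟨hx1, hx2⟩ := TT_ker hJ hx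
    have h4 : ¬ LinearIndependent ℂ ![v, x.2] := fun h => hcon v x.2 h hvJ hx2
    rw [LinearIndependent.pair_iff' hv] at h4
    push Not at h4
    obtain ⟨a, ha⟩ := h4
    refine ⟨a, ?_⟩
    apply Prod.ext
    · simp [g, hx1]
    · simp [g, ha]
  have h4 := Submodule.finrank_mono h2
  have h5 := LinearMap.finrank_range_le g
  rw [Complex.finrank_real_complex] at h5
  omega

theorem all_of {J : Ideal RR} (hJ : J ≤ maximalIdeal RR) {m : ℕ}
    (hm : Module.length ℝ (RR ⧸ J) = m) (h1' : m ≤ 1) (v : Fin 3 → ℂ) : Phi v ∈ J := by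
  have h1 := TT_rank hm
  have h2 : LinearMap.ker (TT J) ≤ LinearMap.range (LinearMap.inr ℝ ℝ (Fin 3 → ℂ)) := by
    intro x hx
    obtain ⟨hx1, hx2⟩ := TT_ker hJ hx
    exact ⟨x.2, Prod.ext hx1.symm rfl⟩
  have h3 : Module.finrank ℝ (LinearMap.range (LinearMap.inr ℝ ℝ (Fin 3 → ℂ))) ≤ 6 := by
    refine (LinearMap.finrank_range_le _).trans ?_
    rw [Module.finrank_pi_fintype]
    simp [Complex.finrank_real_complex]
  have h4 := Submodule.eq_of_le_of_finrank_le h2 (by omega)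
  have h5 : ((0 : ℝ), v) ∈ LinearMap.ker (TT J) := by
    rw [h4]
    exact ⟨v, rfl⟩
  exact (TT_ker hJ h5).2

theorem pow_le_map {k : Type} [Field k] [Algebra k ℂ] {ι : Type} {D : Dat k ι}
    [IsLocalRing D.A] {I : Ideal D.A} {K : ℕ} (hK : maximalIdeal D.A ^ K ≤ I) (j : ι) :
    mS ℂ ^ (4 * K) ≤ I.map (D.pr j) := by
  rw [pow_mul]
  refine (Ideal.pow_right_mono ((D.hc4 j).trans (Dat.c_le_map j)) K).trans ?_
  rw [← Ideal.map_pow]
  exact Ideal.map_mono hK

theorem low_pow {k : Type} [Field k] [Algebra k ℂ] {ι : Type} {D : Dat k ι}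
    [IsLocalRing D.A] {I : Ideal D.A} {K : ℕ} (hK : maximalIdeal D.A ^ K ≤ I) (j : ι) (n : ℕ) :
    ∀ f : S, (∀ a ∈ lowDeg (4 * K * n), coeff a f = 0) → f ∈ (I.map (D.pr j)) ^ n := by
  apply low_of_le
  rw [pow_mul]
  exact Ideal.pow_right_mono (pow_le_map hK j) n

theorem comp_mem_sup {I : Ideal RR} {x : RR} (hx : x ∈ I ⊔ DR.C) (j : Option (Fin 35)) :
    x.1 j ∈ I.map (DR.pr j) ⊔ DR.c j := by
  rw [Submodule.mem_sup] at hx
  obtain ⟨a, ha, b, hb, rfl⟩ := hx
  show a.1 j + b.1 j ∈ _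
  exact add_mem (Ideal.mem_sup_left (Ideal.mem_map_of_mem (DR.pr j) ha))
    (Ideal.mem_sup_right (hb j))

/-- multiplicities of the main components -/
def Fm (l : ℕ) : ℕ := if l ≤ 1 then 1 else if l ≤ 3 then 2 else if l ≤ 6 then 4 else 8

/-- multiplicity of the extra component -/
def Fg (l : ℕ) : ℕ := if l ≤ 1 then 6 else 10

/-- multiplicities of the components -/
def FF (l : ℕ) : Option (Fin 35) → ℕ := fun o => o.elim (Fg l) (fun _ => Fm l)

theorem good_bound {I : Ideal RR} (hI : I ≤ maximalIdeal RR) {K : ℕ}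
    (hK : maximalIdeal RR ^ K ≤ I) {l : ℕ} (hl : Module.length ℝ (RR ⧸ (I ⊔ DR.C)) = l)
    (j : Option (Fin 35)) (hj : DR.c j ≤ I.map (DR.pr j)) (N : ℕ) :
    Module.length ℂ (S ⧸ (I.map (DR.pr j)) ^ N) ≤ ((FF l j * (tri N).card : ℕ) : ℕ∞) := by
  have hJ : I ⊔ DR.C ≤ maximalIdeal RR := sup_le hI C_le
  have hmem : ∀ v, Phi v ∈ I ⊔ DR.C → phi (Fin 35) v j ∈ I.map (DR.pr j) := by
    intro v hv
    have h1 := comp_mem_sup hv j
    rw [sup_eq_left.mpr hj] at h1
    exact h1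
  cases j with
  | none =>
    show Module.length ℂ _ ≤ ((Fg l * (tri N).card : ℕ) : ℕ∞)
    unfold Fg
    split_ifs with h
    · apply gain_bound_all hj _ N (low_pow hK none N)
      intro a
      have h2 := hmem (fun _ => a) (all_of hJ hl h _)
      exact h2
    · exact length_pow_le_c0 hj N (low_pow hK none N)
  | some i =>
    show Module.length ℂ _ ≤ ((Fm l * (tri N).card : ℕ) : ℕ∞)
    unfold Fm
    split_ifs with h1 h2 h3
    · exact main_bound_all (fun v => hmem v (all_of hJ hl h1 v)) N (low_pow hK _ N)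
    · obtain ⟨v, w, hvw, hv, hw⟩ := exists_two hJ hl h2
      exact main_bound_two hj hvw (hmem v hv) (hmem w hw) N (low_pow hK _ N)
    · obtain ⟨v, hv0, hv⟩ := exists_one hJ hl h3
      exact main_bound_one hj hv0 (hmem v hv) N (low_pow hK _ N)
    · exact main_bound_zero hj N (low_pow hK _ N)

theorem comp_bound {I : Ideal RR} (hI : I ≤ maximalIdeal RR) {K : ℕ}
    (hK : maximalIdeal RR ^ K ≤ I) {l : ℕ} (hl : Module.length ℝ (RR ⧸ (I ⊔ DR.C)) = l)
    (j : Option (Fin 35)) {N : ℕ} (hN : 0 < N) :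
    Module.length ℂ (S ⧸ (I.map (DR.pr j)) ^ N) ≤ ((FF l j * (tri N).card : ℕ) : ℕ∞) +
      (N : ℕ∞) ^ 3 * (9 * Module.length ℂ (defect I j)) := by
  by_cases h : Module.length ℂ (defect I j) = 0
  · have h1 := good_bound hI hK hl j (c_le_of_defect I j h) N
    rw [h]
    simpa using h1
  · have h1 : 1 ≤ Module.length ℂ (defect I j) := Order.one_le_iff_pos.mpr (pos_iff_ne_zero.mpr h)
    have h2 := length_pow_le_lech (low_of_le (pow_le_map hK j)) N hN (low_pow hK j N)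
    refine h2.trans ?_
    refine le_trans ?_ le_add_self
    gcongr
    rw [length_component]
    have h3 : Module.length ℂ (S ⧸ (I.map (DR.pr j) ⊔ DR.c j)) ≤ 8 := by
      refine le_trans ?_ (length_cc (Fin 35) j)
      apply length_le_of_ker_le (mkL ℂ (cc (Fin 35) j)) (mkL ℂ (I.map (DR.pr j) ⊔ DR.c j)) mkL_surj
      intro x hx
      rw [LinearMap.mem_ker, mkL_eq_zero] at hx ⊢
      exact Ideal.mem_sup_right hx
    calc Module.length ℂ (defect I j) + Module.length ℂ (S ⧸ (I.map (DR.pr j) ⊔ DR.c j))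
        ≤ Module.length ℂ (defect I j) + 8 * 1 := by gcongr; simpa using h3
      _ ≤ Module.length ℂ (defect I j) + 8 * Module.length ℂ (defect I j) := by gcongr
      _ = 9 * Module.length ℂ (defect I j) := by ring

theorem FF_sum (l : ℕ) : ∑ j, FF l j = Fg l + 35 * Fm l := by
  rw [Fintype.sum_option]
  simp [FF]

theorem FF_ineq {l : ℕ} (hl : 1 ≤ l) : 14 * (Fg l + 35 * Fm l) ≤ 580 * l := by
  unfold Fg Fm
  split_ifs <;> omega

theorem final_arith {A : Type} [CommRing A] (hd : dimNat A = 3) (I : Ideal A) (l L Δ : ℕ)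
    (hl : 1 ≤ l) (hL : l + 2 * Δ ≤ L) (hcol : colength A I = (L : ℝ≥0∞))
    (hpow : ∀ n, 0 < n → colength A (I ^ n) ≤
      ((2 * ((Fg l + 35 * Fm l) * (tri (n + 4)).card) + 18 * (n + 4) ^ 3 * Δ : ℕ) : ℝ≥0∞)) :
    7 * mult A I ≤ 580 * colength A I := by
  have key : ∀ n : ℕ, 0 < n → 6 * colength A (I ^ n) ≤
      ((2 * (Fg l + 35 * Fm l) + 108 * Δ : ℕ) : ℝ≥0∞) * ((n : ℝ≥0∞) + (6 : ℕ)) ^ 3 := by
    intro n hn
    have h5 : 6 * (2 * ((Fg l + 35 * Fm l) * (tri (n + 4)).card) + 18 * (n + 4) ^ 3 * Δ) ≤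
        (2 * (Fg l + 35 * Fm l) + 108 * Δ) * (n + 6) ^ 3 := by
      have e2 := card_tri (n + 4)
      have e3 : (n + 4) * (n + 4 + 1) * (n + 4 + 2) ≤ (n + 6) ^ 3 := by
        have : (n + 6) ^ 3 = (n + 6) * (n + 6) * (n + 6) := by ring
        rw [this]
        exact Nat.mul_le_mul (Nat.mul_le_mul (by omega) (by omega)) (by omega)
      have e4 : (n + 4) ^ 3 ≤ (n + 6) ^ 3 := Nat.pow_le_pow_left (by omega) 3
      calc 6 * (2 * ((Fg l + 35 * Fm l) * (tri (n + 4)).card) + 18 * (n + 4) ^ 3 * Δ)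
          = 2 * (Fg l + 35 * Fm l) * (6 * (tri (n + 4)).card) +
            108 * Δ * (n + 4) ^ 3 := by ring
        _ ≤ 2 * (Fg l + 35 * Fm l) * (n + 6) ^ 3 + 108 * Δ * (n + 6) ^ 3 := by
            rw [e2]
            gcongr
        _ = _ := by ring
    calc 6 * colength A (I ^ n)
        ≤ 6 * ((2 * ((Fg l + 35 * Fm l) * (tri (n + 4)).card) + 18 * (n + 4) ^ 3 * Δ : ℕ) :
            ℝ≥0∞) := by
          gcongr
          exact hpow n hn
      _ = ((6 * (2 * ((Fg l + 35 * Fm l) * (tri (n + 4)).card) + 18 * (n + 4) ^ 3 * Δ) : ℕ) :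
            ℝ≥0∞) := by
          push_cast; rfl
      _ ≤ (((2 * (Fg l + 35 * Fm l) + 108 * Δ) * (n + 6) ^ 3 : ℕ) : ℝ≥0∞) := by
          exact_mod_cast h5
      _ = _ := by push_cast; rfl
  have hm : mult A I ≤ ((2 * (Fg l + 35 * Fm l) + 108 * Δ : ℕ) : ℝ≥0∞) := by
    unfold mult
    rw [hd]
    have := limsup_le_cubic (fun n => colength A (I ^ n)) _ 6 key
    simpa [Nat.factorial] using this
  rw [hcol]
  calc 7 * mult A I ≤ 7 * ((2 * (Fg l + 35 * Fm l) + 108 * Δ : ℕ) : ℝ≥0∞) := by gcongr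
    _ = ((7 * (2 * (Fg l + 35 * Fm l) + 108 * Δ) : ℕ) : ℝ≥0∞) := by push_cast; rfl
    _ ≤ ((580 * L : ℕ) : ℝ≥0∞) := by
        have h1 := FF_ineq hl
        have h2 : 7 * (2 * (Fg l + 35 * Fm l) + 108 * Δ) ≤ 580 * L := by
          nlinarith
        exact_mod_cast h2
    _ = _ := by push_cast; rfl

theorem Dat.length_eq {k : Type} [Field k] [Algebra k ℂ] {ι : Type} (D : Dat k ι) [Nonempty ι]
    [IsLocalRing D.A] (J : Ideal D.A) :
    Module.length D.A (D.A ⧸ J) = Module.length k (D.A ⧸ J) :=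
  length_eq_of_residue (Dat.residue D) (D.A ⧸ J)

theorem Dat.colength_eq {k : Type} [Field k] [Algebra k ℂ] {ι : Type} (D : Dat k ι) [Nonempty ι]
    [IsLocalRing D.A] (J : Ideal D.A) :
    colength D.A J = ((Module.length k (D.A ⧸ J) : ℕ∞) : ℝ≥0∞) := by
  unfold colength
  rw [Dat.length_eq]

theorem length_pow_bound {I : Ideal RR} (hI : I ≤ maximalIdeal RR) {K : ℕ}
    (hK : maximalIdeal RR ^ K ≤ I) {l : ℕ} (hl : Module.length ℝ (RR ⧸ (I ⊔ DR.C)) = l)
    (δ : Option (Fin 35) → ℕ) (hδ : ∀ j, (δ j : ℕ∞) = Module.length ℂ (defect I j)) (n : ℕ) :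
    Module.length ℝ (RR ⧸ I ^ n) ≤
      ((2 * ((Fg l + 35 * Fm l) * (tri (n + 4)).card) + 18 * (n + 4) ^ 3 * ∑ j, δ j : ℕ) : ℕ∞) := by
  have h1 := length_quot_pow_le (D := DR) I hI n
  have h2 : ∀ j, Module.length ℝ (S ⧸ (I.map (DR.pr j)) ^ (n + 4)) ≤
      ((2 * (FF l j * (tri (n + 4)).card + (n + 4) ^ 3 * (9 * δ j)) : ℕ) : ℕ∞) := by
    intro j
    rw [length_real_eq]
    have h3 := comp_bound hI hK hl j (N := n + 4) (by omega)
    rw [← hδ j] at h3
    push_cast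
    push_cast at h3
    gcongr
  have h4 : Module.length ℝ (RR ⧸ I ^ n) ≤
      ((∑ j, 2 * (FF l j * (tri (n + 4)).card + (n + 4) ^ 3 * (9 * δ j)) : ℕ) : ℕ∞) := by
    refine h1.trans ?_
    rw [Nat.cast_sum]
    exact Finset.sum_le_sum (fun j _ => h2 j)
  have e1 : ∑ j, 2 * (FF l j * (tri (n + 4)).card + (n + 4) ^ 3 * (9 * δ j)) =
      2 * ((∑ j, FF l j) * (tri (n + 4)).card) + 18 * (n + 4) ^ 3 * ∑ j, δ j := by
    rw [Finset.sum_mul, Finset.mul_sum, Finset.mul_sum, ← Finset.sum_add_distrib]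
    apply Finset.sum_congr rfl
    intro j _
    ring
  rw [e1, FF_sum] at h4
  exact h4

theorem mult_le (I : Ideal RR) (hI : I.radical = maximalIdeal RR) :
    7 * mult RR I ≤ 580 * colength RR I := by
  have hIm : I ≤ maximalIdeal RR := hI ▸ Ideal.le_radical
  obtain ⟨K, hK⟩ := Ideal.exists_radical_pow_le_of_fg I (IsNoetherian.noetherian _)
  rw [hI] at hK
  have hlow := le_length_quot (D := DR) I
  by_cases htop : Module.length ℝ (RR ⧸ I) = ⊤
  · rw [Dat.colength_eq DR I, htop, ENat.toENNReal_top, ENNReal.mul_top (by norm_num)]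
    exact le_top
  have hne : Module.length ℝ (RR ⧸ (I ⊔ DR.C)) + ∑ j, 2 * Module.length ℂ (defect I j) ≠ ⊤ := by
    intro h
    rw [h, top_le_iff] at hlow
    exact htop hlow
  have hl0 : Module.length ℝ (RR ⧸ (I ⊔ DR.C)) ≠ ⊤ := fun h => hne (by rw [h, top_add])
  have hd0 : ∀ j, Module.length ℂ (defect I j) ≠ ⊤ := by
    intro j h
    apply hne
    have h1 : ∑ j, 2 * Module.length ℂ (defect I j) = ⊤ := by
      rw [← top_le_iff]
      calc (⊤ : ℕ∞) = 2 * Module.length ℂ (defect I j) := by rw [h]; rfl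
        _ ≤ _ := Finset.single_le_sum (f := fun j => 2 * Module.length ℂ (defect I j))
            (fun _ _ => zero_le) (Finset.mem_univ j)
    rw [h1, add_top]
  obtain ⟨L, hL⟩ := ENat.ne_top_iff_exists.mp htop
  obtain ⟨l, hl⟩ := ENat.ne_top_iff_exists.mp hl0
  choose δ hδ using fun j => ENat.ne_top_iff_exists.mp (hd0 j)
  have hl1 : 1 ≤ l := by
    have h1 : 0 < Module.length ℝ (RR ⧸ (I ⊔ DR.C)) := by
      rw [Module.length_pos_iff]
      apply Ideal.Quotient.nontrivial_iff.mpr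
      intro h
      have h2 : I ⊔ DR.C ≤ maximalIdeal RR := sup_le hIm C_le
      rw [h, top_le_iff] at h2
      exact (maximalIdeal.isMaximal RR).ne_top h2
    rw [← hl] at h1
    exact_mod_cast h1
  have hLge : l + 2 * ∑ j, δ j ≤ L := by
    rw [← hL, ← hl] at hlow
    simp only [← hδ] at hlow
    rw [Finset.mul_sum]
    exact_mod_cast hlow
  refine final_arith dimNat_RR I l L (∑ j, δ j) hl1 hLge ?_ ?_
  · rw [Dat.colength_eq DR I, ← hL, ENat.toENNReal_coe]
  · intro n _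
    rw [Dat.colength_eq DR (I ^ n), ← ENat.toENNReal_coe]
    exact ENat.toENNReal_le.mpr (length_pow_bound hIm hK hl.symm δ hδ n)

end Pool.Agent.Lib.MP_69a698_al
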