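import Pool.Agent.Lib.MP_69a698_al.Cx
import Pool.Agent.Lib.MP_69a698_al.UpperBound

/-! # Lower bound for the Lech–Mumford constant of the complexified ring -/

open MvPowerSeries Finset IsLocalRing Filter
open scoped ENNReal

namespace Pool.Agent.Lib.MP_69a698_al

/-- index set of the complexified ring -/
abbrev Kap : Type := Option (Fin 35) ⊕ Option (Fin 35)

/-- the complexified ring -/
noncomputable abbrev DC : Dat ℂ Kap := D2 (Fin 35)

/-- the complexified ring -/
noncomputable abbrev RC : Subalgebra ℂ (Kap → S) := DC.A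

instance : IsLocalRing RC := Dat.isLocalRing

instance : IsNoetherianRing RC := Dat.isNoetherianRing

theorem dimNat_RC : dimNat RC = 3 := by
  unfold dimNat
  rw [Dat.ringKrullDim_eq]
  rfl

theorem length_lower {ι : Type} [Fintype ι] {D : Dat ℂ ι} (J : Ideal D.A) (W : ι → Ideal S)
    (hJ : ∀ x ∈ J, ∀ j, x.1 j ∈ W j) (B : ι → ℕ∞)
    (hB : ∀ j, Module.length ℂ (S ⧸ D.c j) ≤ B j) :
    ∑ j, Module.length ℂ (S ⧸ W j) ≤ Module.length ℂ (D.A ⧸ J) + ∑ j, B j := by
  let g : (ι → S) →ₗ[ℂ] (∀ j, S ⧸ W j) :=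
    LinearMap.pi (fun j => (mkL ℂ (W j)).comp (LinearMap.proj j))
  have hg : ∀ x j, g x j = mkL ℂ (W j) (x j) := fun x j => rfl
  have hgs : Function.Surjective g := by
    intro y
    choose x hx using fun j => mkL_surj (k := ℂ) (I := W j) (y j)
    exact ⟨x, funext hx⟩
  let h : (ι → S) →ₗ[ℂ] (∀ j, S ⧸ D.c j) :=
    LinearMap.pi (fun j => (mkL ℂ (D.c j)).comp (LinearMap.proj j))
  have hh : ∀ x j, h x j = mkL ℂ (D.c j) (x j) := fun x j => rfl
  let v : D.A →ₗ[ℂ] (ι → S) := D.A.val.toLinearMap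
  let N : Submodule ℂ (∀ j, S ⧸ W j) := LinearMap.range (g.comp v)
  have h1 : Module.length ℂ (∀ j, S ⧸ W j) = Module.length ℂ N +
      Module.length ℂ ((∀ j, S ⧸ W j) ⧸ N) :=
    Module.length_eq_add_of_exact N.subtype N.mkQ N.injective_subtype N.mkQ_surjective
      (LinearMap.exact_subtype_mkQ N)
  rw [← Module.length_pi_of_fintype, h1]
  apply add_le_add
  · apply length_le_of_ker_le (k := ℂ) (mkL ℂ J) (g.comp v).rangeRestrict
      (LinearMap.surjective_rangeRestrict _)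
    intro x hx
    rw [LinearMap.mem_ker, mkL_eq_zero] at hx
    rw [LinearMap.ker_rangeRestrict, LinearMap.mem_ker]
    funext j
    show mkL ℂ (W j) (x.1 j) = 0
    exact (mkL_eq_zero (k := ℂ)).mpr (hJ x hx j)
  · have h2 : Module.length ℂ ((∀ j, S ⧸ W j) ⧸ N) ≤ Module.length ℂ (∀ j, S ⧸ D.c j) := by
      apply length_le_of_ker_le (k := ℂ) h (N.mkQ.comp g)
        ((N.mkQ_surjective).comp hgs)
      intro x hx
      rw [LinearMap.mem_ker] at hx ⊢
      have hx' : ∀ j, x j ∈ D.c j := fun j => (mkL_eq_zero (k := ℂ)).mp (congrFun hx j)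
      rw [LinearMap.comp_apply, Submodule.mkQ_apply, Submodule.Quotient.mk_eq_zero]
      exact ⟨⟨x, Dat.mem_of_c hx'⟩, rfl⟩
    refine h2.trans ?_
    rw [Module.length_pi_of_fintype]
    exact Finset.sum_le_sum (fun j _ => hB j)

/-- the ideal `I'` -/
noncomputable def IC : Ideal RC where
  carrier := {x | ∃ η, ∀ j, x.1 j - phi2 (Fin 35) (0, η) j ∈ DC.c j}
  add_mem' := by
    rintro x y ⟨η, h⟩ ⟨η', h'⟩
    refine ⟨η + η', fun j => ?_⟩
    have e : ((0 : Fin 3 → ℂ), η + η') = (0, η) + (0, η') := by simp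
    have := add_mem (h j) (h' j)
    rw [e, map_add, Pi.add_apply]
    convert this using 1
    show x.1 j + y.1 j - _ = _
    ring
  zero_mem' := by
    refine ⟨0, fun j => ?_⟩
    have e : ((0 : Fin 3 → ℂ), (0 : Fin 3 → ℂ)) = 0 := rfl
    rw [e, map_zero]
    show (0 : S) - (0 : S) ∈ _
    rw [sub_zero]
    exact zero_mem _
  smul_mem' := by
    rintro r x ⟨η, h⟩
    obtain ⟨l, v, hv, hr⟩ := id r.2
    refine ⟨l • η, fun j => ?_⟩
    have e : ((0 : Fin 3 → ℂ), l • η) = l • (0, η) := by simp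
    rw [e, map_smul, Pi.smul_apply, Algebra.smul_def l (phi2 (Fin 35) (0, η) j)]
    have h1 := Ideal.mul_mem_right (x.1 j) _ (hr j)
    have h2 := Ideal.mul_mem_left (DC.c j) (algebraMap ℂ S l + v j) (h j)
    have h3 := DC.hU2 v hv (phi2 (Fin 35) (0, η)) ⟨_, rfl⟩ j
    have := add_mem (add_mem h1 h2) h3
    convert this using 1
    show r.1 j * x.1 j - _ = _
    ring

theorem mem_IC {x : RC} : x ∈ IC ↔ ∃ η, ∀ j, x.1 j - phi2 (Fin 35) (0, η) j ∈ DC.c j := Iff.rfl

theorem C_le_IC {x : RC} (hx : ∀ j, x.1 j ∈ DC.c j) : x ∈ IC := by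
  refine ⟨0, fun j => ?_⟩
  have e : ((0 : Fin 3 → ℂ), (0 : Fin 3 → ℂ)) = 0 := rfl
  rw [e, map_zero]
  show x.1 j - (0 : S) ∈ _
  rw [sub_zero]
  exact hx j

theorem IC_le : IC ≤ maximalIdeal RC := by
  rintro x ⟨η, h⟩
  rw [Dat.mem_maximalIdeal (Sum.inl none)]
  have h1 := constantCoeff_of_mem (DC.hc1 _ (h (Sum.inl none)))
  have h2 := constantCoeff_of_mem (DC.hU1 (phi2 (Fin 35) (0, η)) ⟨_, rfl⟩ (Sum.inl none))
  rw [map_sub, h2, sub_zero] at h1
  exact h1

theorem IC_radical : IC.radical = maximalIdeal RC := by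
  apply le_antisymm
  · rw [Ideal.IsPrime.radical_le_iff inferInstance]
    exact IC_le
  · intro x hx
    refine ⟨4, C_le_IC (fun j => DC.hc4 j ?_)⟩
    exact Dat.pow_mem (Ideal.pow_mem_pow hx 4) j

theorem length_IC : Module.length ℂ (RC ⧸ IC) ≤ 4 := by
  let P : (Fin 3 → ℂ) →ₗ[ℂ] RC :=
    { toFun := fun v => ⟨phi2 (Fin 35) (v, 0), Dat.mem_of_U ⟨_, rfl⟩⟩
      map_add' := fun v w => by
        apply Subtype.ext
        have e : (v + w, (0 : Fin 3 → ℂ)) = (v, 0) + (w, 0) := by simp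
        show phi2 (Fin 35) (v + w, 0) = phi2 (Fin 35) (v, 0) + phi2 (Fin 35) (w, 0)
        rw [e, map_add]
      map_smul' := fun r v => by
        apply Subtype.ext
        have e : (r • v, (0 : Fin 3 → ℂ)) = r • (v, 0) := by simp
        show phi2 (Fin 35) (r • v, 0) = r • phi2 (Fin 35) (v, 0)
        rw [e, map_smul] }
  let f : (ℂ × (Fin 3 → ℂ)) →ₗ[ℂ] RC ⧸ IC :=
    (mkL ℂ IC).comp (LinearMap.coprod (Algebra.linearMap ℂ RC) P)
  have hf : Function.Surjective f := by
    intro y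
    obtain ⟨x, rfl⟩ := mkL_surj (k := ℂ) y
    obtain ⟨l, _, ⟨⟨ξ, η⟩, rfl⟩, h⟩ := id x.2
    refine ⟨(l, ξ), ?_⟩
    have h1 : x - (algebraMap ℂ RC l + P ξ) ∈ IC := by
      refine ⟨η, fun j => ?_⟩
      have h2 := h j
      have e : (ξ, η) = (ξ, 0) + (0, η) := by simp
      rw [e, map_add, Pi.add_apply] at h2
      convert h2 using 1
      show x.1 j - (algebraMap ℂ S l + phi2 (Fin 35) (ξ, 0) j) - _ = _
      ring
    have h2 : mkL ℂ IC (x - (algebraMap ℂ RC l + P ξ)) = 0 := mkL_eq_zero.mpr h1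
    rw [map_sub, sub_eq_zero] at h2
    rw [h2]
    rfl
  refine (Module.length_le_of_surjective f hf).trans ?_
  rw [Module.length_eq_finrank, Module.finrank_prod, Module.finrank_self,
    Module.finrank_fin_fun]
  norm_num

/-- weights -/
def wt : Kap → Fin 3 → ℕ :=
  Sum.elim (fun o => o.elim ![1, 1, 3] (fun _ => w1)) (fun o => o.elim ![1, 2, 4] (fun _ => w1))

/-- heights -/
def ht : Kap → ℕ := Sum.elim (fun o => o.elim 3 (fun _ => 2)) (fun o => o.elim 4 (fun _ => 1))

/-- sizes -/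
def pt : Kap → Fin 3 → ℕ :=
  Sum.elim (fun o => o.elim ![3, 3, 1] (fun _ => ![2, 2, 2]))
    (fun o => o.elim ![4, 2, 1] (fun _ => ![1, 1, 1]))

theorem wt_mul_pt (j : Kap) (i : Fin 3) : wt j i * pt j i = ht j := by
  rcases j with (_ | j) | (_ | j) <;> fin_cases i <;> simp [wt, pt, ht]

theorem ht_pos (j : Kap) : 0 < ht j := by
  rcases j with (_ | j) | (_ | j) <;> simp [ht]

theorem comp_le (j : Kap) (η : Fin 3 → ℂ) {f : S} (h : f - phi2 (Fin 35) (0, η) j ∈ DC.c j) :
    f ∈ (V (wt j) (ht j) : Ideal S) := by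
  have hc : DC.c j ≤ (V (wt j) (ht j) : Ideal S) := by
    rcases j with (_ | j) | (_ | j)
    · intro f hf a ha
      apply hf
      simp only [Lam, Set.mem_ofPred_eq]
      simp [wdeg, wt, ht] at ha
      omega
    · exact le_rfl
    · intro f hf a ha
      apply hf
      simp only [Lam, Set.mem_ofPred_eq]
      simp [wdeg, wt, ht] at ha
      omega
    · exact V_anti _ (by simp [ht])
  have hp : phi2 (Fin 35) (0, η) j ∈ (V (wt j) (ht j) : Ideal S) := by
    rcases j with (_ | j) | (_ | j)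
    · show gn 0 (η 0) ∈ _
      unfold gn
      rw [map_zero, zero_add]
      apply monomial_mem_V
      simp [wdeg, wt, ht]
    · show lin 0 ∈ _
      have : lin (0 : Fin 3 → ℂ) = 0 := by simp [lin]
      rw [this]
      exact zero_mem _
    · show gn (η 0) 0 ∈ _
      unfold gn
      rw [map_zero, add_zero]
      apply monomial_mem_V
      simp [wdeg, wt, ht]
    · exact lin_mem η
  have := add_mem (hc h) hp
  simpa using this

theorem IC_map_le (j : Kap) : IC.map (DC.pr j) ≤ (V (wt j) (ht j) : Ideal S) := by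
  rw [Ideal.map_le_iff_le_comap]
  rintro x ⟨η, h⟩
  exact comp_le j η (h j)

theorem sum_pt : ∑ j, pt j 0 * pt j 1 * pt j 2 = 332 := by
  rw [Fintype.sum_sum_type, Fintype.sum_option, Fintype.sum_option]
  simp [pt]

theorem length_pow_IC (n : ℕ) :
    ((332 * (tri (n - 2)).card : ℕ) : ℕ∞) ≤ Module.length ℂ (RC ⧸ IC ^ n) + 576 := by
  have h1 := length_lower (D := DC) (IC ^ n) (fun j => (V (wt j) (ht j * n) : Ideal S)) (by
    intro x hx j
    have h2 : DC.pr j x ∈ (IC ^ n).map (DC.pr j) := Ideal.mem_map_of_mem _ hx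
    rw [Ideal.map_pow] at h2
    exact pow_le_V (IC_map_le j) n h2) (fun _ => 8) (by
    rintro (j | j)
    · exact length_cc (Fin 35) j
    · exact length_cc (Fin 35) j)
  have h3 : ∑ _j : Kap, (8 : ℕ∞) = 576 := by
    rw [Finset.sum_const, Finset.card_univ]
    simp only [Kap, Fintype.card_sum, Fintype.card_option, Fintype.card_fin]
    norm_num
  rw [h3] at h1
  refine le_trans ?_ h1
  have h4 : ((332 * (tri (n - 2)).card : ℕ) : ℕ∞) =
      ∑ j, ((pt j 0 * pt j 1 * pt j 2 * (tri (n - 2)).card : ℕ) : ℕ∞) := by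
    rw [← Nat.cast_sum, ← Finset.sum_mul, sum_pt]
  rw [h4]
  exact Finset.sum_le_sum (fun j _ => le_length_V (wt j) (pt j) (ht j) (wt_mul_pt j) (ht_pos j) n)

theorem mult_IC : (332 : ℝ≥0∞) ≤ mult RC IC := by
  unfold mult
  rw [dimNat_RC]
  have h := le_limsup_cubic (fun n => colength RC (IC ^ n)) 332 3456 (by
    intro n
    have h1 := length_pow_IC n
    have h2 := ENat.toENNReal_le.mpr h1
    rw [ENat.toENNReal_add, ← Dat.colength_eq DC (IC ^ n)] at h2
    have h3 : ((332 * (n - 2) ^ 3 : ℕ) : ℝ≥0∞) ≤ ((6 * (332 * (tri (n - 2)).card) : ℕ) : ℝ≥0∞) := by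
      have h4 := card_tri (n - 2)
      have h5 : (n - 2) ^ 3 ≤ (n - 2) * (n - 2 + 1) * (n - 2 + 2) := by
        have : (n - 2) ^ 3 = (n - 2) * (n - 2) * (n - 2) := by ring
        rw [this]
        exact Nat.mul_le_mul (Nat.mul_le_mul le_rfl (by omega)) (by omega)
      have h6 : 332 * (n - 2) ^ 3 ≤ 6 * (332 * (tri (n - 2)).card) := by
        calc 332 * (n - 2) ^ 3 ≤ 332 * ((n - 2) * (n - 2 + 1) * (n - 2 + 2)) := by gcongr
          _ = 332 * (6 * (tri (n - 2)).card) := by rw [h4]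
          _ = _ := by ring
      exact_mod_cast h6
    calc ((332 : ℕ) : ℝ≥0∞) * ((n - 2 : ℕ) : ℝ≥0∞) ^ 3 = ((332 * (n - 2) ^ 3 : ℕ) : ℝ≥0∞) := by
          push_cast; rfl
      _ ≤ ((6 * (332 * (tri (n - 2)).card) : ℕ) : ℝ≥0∞) := h3
      _ = 6 * ((332 * (tri (n - 2)).card : ℕ) : ℝ≥0∞) := by push_cast; rfl
      _ ≤ 6 * (colength RC (IC ^ n) + 576) := by
          gcongr
          rw [ENat.toENNReal_coe] at h2
          exact h2
      _ = 6 * colength RC (IC ^ n) + ((3456 : ℕ) : ℝ≥0∞) := by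
          rw [mul_add]
          norm_num)
  simpa [Nat.factorial] using h

theorem le_lechMumford_RC : (83 / 6 : ℝ≥0∞) ≤ lechMumford RC := by
  unfold lechMumford
  refine le_trans ?_ (le_iSup _ ⟨IC, IC_radical⟩)
  rw [dimNat_RC]
  have h1 : colength RC IC ≤ 4 := by
    rw [Dat.colength_eq DC IC]
    have := ENat.toENNReal_le.mpr length_IC
    exact this
  have h2 := mult_IC
  calc (83 / 6 : ℝ≥0∞) = 332 / (6 * 4) := by
        rw [← ENNReal.toReal_eq_toReal_iff' (ENNReal.div_ne_top (by norm_num) (by norm_num))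
          (ENNReal.div_ne_top (by norm_num) (by norm_num))]
        rw [ENNReal.toReal_div, ENNReal.toReal_div, ENNReal.toReal_mul]
        norm_num
    _ ≤ _ := by
        apply ENNReal.div_le_div h2
        simp only [Nat.factorial]
        gcongr
        norm_num

theorem lechMumford_RR_le : lechMumford RR ≤ 290 / 21 := by
  unfold lechMumford
  apply iSup_le
  rintro ⟨I, hI⟩
  rw [dimNat_RR]
  apply ENNReal.div_le_of_le_mul
  have h1 := mult_le I hI
  have h2 : mult RR I = 7 * mult RR I / 7 := by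
    rw [mul_comm, ENNReal.mul_div_cancel_right (by norm_num) (by norm_num)]
  rw [h2]
  apply ENNReal.div_le_of_le_mul
  refine h1.trans (le_of_eq ?_)
  have h3 : (290 / 21 : ℝ≥0∞) * (6 * 7) = 580 := by
    rw [← ENNReal.toReal_eq_toReal_iff' (ENNReal.mul_ne_top (ENNReal.div_ne_top (by norm_num)
      (by norm_num)) (by norm_num)) (by norm_num)]
    rw [ENNReal.toReal_mul, ENNReal.toReal_div, ENNReal.toReal_mul]
    norm_num
  calc (580 : ℝ≥0∞) * colength RR I = (290 / 21 : ℝ≥0∞) * (6 * 7) * colength RR I := by rw [h3]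
    _ = _ := by
      simp only [Nat.factorial]
      push_cast
      ring

theorem lt_const : (290 / 21 : ℝ≥0∞) < 83 / 6 := by
  rw [← ENNReal.toReal_lt_toReal (ENNReal.div_ne_top (by norm_num) (by norm_num))
    (ENNReal.div_ne_top (by norm_num) (by norm_num)), ENNReal.toReal_div, ENNReal.toReal_div]
  norm_num

end Pool.Agent.Lib.MP_69a698_al
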