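import Pool.Agent.Lib.MP_69a698_al.Count

/-! # Weighted order ideals -/

open MvPowerSeries Finset

namespace Pool.Agent.Lib.MP_69a698_al

/-- weighted degree of an exponent -/
def wdeg (w : Fin 3 → ℕ) (a : Fin 3 →₀ ℕ) : ℕ := w 0 * a 0 + w 1 * a 1 + w 2 * a 2

theorem wdeg_add (w : Fin 3 → ℕ) (a b : Fin 3 →₀ ℕ) : wdeg w (a + b) = wdeg w a + wdeg w b := by
  simp only [wdeg, Finsupp.add_apply]; ring

theorem wdeg_one (a : Fin 3 →₀ ℕ) : wdeg (fun _ => 1) a = deg a := by
  simp [wdeg, deg]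

variable {K : Type} [Field K]

/-- power series of weighted order at least `N` -/
def V (w : Fin 3 → ℕ) (N : ℕ) : Ideal (MvPowerSeries (Fin 3) K) where
  carrier := {f | ∀ a, wdeg w a < N → coeff a f = 0}
  add_mem' := by
    intro f g hf hg a ha
    rw [map_add, hf a ha, hg a ha, add_zero]
  zero_mem' := by
    intro a _
    simp
  smul_mem' := by
    intro c f hf a ha
    rw [smul_eq_mul, coeff_mul]
    apply Finset.sum_eq_zero
    rintro ⟨p, q⟩ hpq
    rw [HasAntidiagonal.mem_antidiagonal] at hpq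
    rw [hf q, mul_zero]
    have := wdeg_add w p q
    simp only at hpq
    rw [hpq] at this
    omega

theorem mem_V {w : Fin 3 → ℕ} {N : ℕ} {f : MvPowerSeries (Fin 3) K} :
    f ∈ V w N ↔ ∀ a, wdeg w a < N → coeff a f = 0 := Iff.rfl

theorem V_mul {w : Fin 3 → ℕ} {N M : ℕ} {f g : MvPowerSeries (Fin 3) K}
    (hf : f ∈ V w N) (hg : g ∈ V w M) : f * g ∈ V w (N + M) := by
  intro a ha
  rw [coeff_mul]
  apply Finset.sum_eq_zero
  rintro ⟨p, q⟩ hpq
  rw [HasAntidiagonal.mem_antidiagonal] at hpq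
  simp only at hpq
  have := wdeg_add w p q
  rw [hpq] at this
  by_cases h : wdeg w p < N
  · rw [hf p h, zero_mul]
  · rw [hg q (by omega), mul_zero]

theorem V_zero (w : Fin 3 → ℕ) : (V w 0 : Ideal (MvPowerSeries (Fin 3) K)) = ⊤ := by
  rw [eq_top_iff]
  intro f _ a ha
  omega

theorem V_anti (w : Fin 3 → ℕ) {N M : ℕ} (h : N ≤ M) :
    (V w M : Ideal (MvPowerSeries (Fin 3) K)) ≤ V w N := by
  intro f hf a ha
  exact hf a (by omega)

theorem pow_le_V {w : Fin 3 → ℕ} {h : ℕ} {J : Ideal (MvPowerSeries (Fin 3) K)}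
    (hJ : J ≤ V w h) (n : ℕ) : J ^ n ≤ V w (h * n) := by
  induction n with
  | zero => rw [Nat.mul_zero, V_zero]; exact le_top
  | succ n ih =>
    rw [pow_succ, Nat.mul_succ]
    rw [Ideal.mul_le]
    intro r hr s hs
    exact V_mul (ih hr) (hJ hs)

theorem monomial_mem_V {w : Fin 3 → ℕ} {N : ℕ} {a : Fin 3 →₀ ℕ} (h : N ≤ wdeg w a) (c : K) :
    monomial a c ∈ (V w N : Ideal (MvPowerSeries (Fin 3) K)) := by
  intro b hb
  rw [coeff_monomial, if_neg]
  rintro rfl
  omega

theorem not_mem_Ex_V {w : Fin 3 → ℕ} {N : ℕ} {a : Fin 3 →₀ ℕ} (h : wdeg w a < N) :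
    a ∉ Ex (V w N : Ideal (MvPowerSeries (Fin 3) K)) := by
  rintro ⟨f, hf, hfa⟩
  exact coeff_ne_zero_of_lexOrder hfa.symm (hf a h)

/-- lower bound for the colength of `V w (h n)` when `h = wᵢ pᵢ` -/
theorem le_length_V (w p : Fin 3 → ℕ) (h : ℕ) (hp : ∀ i, w i * p i = h) (hh : 0 < h) (n : ℕ) :
    ((p 0 * p 1 * p 2 * (tri (n - 2)).card : ℕ) : ℕ∞) ≤
      Module.length K (MvPowerSeries (Fin 3) K ⧸ (V w (h * n) : Ideal (MvPowerSeries (Fin 3) K))) := by
  classical
  let B : Finset (ℕ × ℕ × ℕ) := range (p 0) ×ˢ (range (p 1) ×ˢ range (p 2))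
  let g : (ℕ × ℕ × ℕ) × (ℕ × ℕ × ℕ) → (Fin 3 →₀ ℕ) := fun q =>
    Finsupp.equivFunOnFinite.symm ![q.1.1 + p 0 * q.2.1, q.1.2.1 + p 1 * q.2.2.1,
      q.1.2.2 + p 2 * q.2.2.2]
  have hinj : Set.InjOn g (B ×ˢ tri (n - 2) : Finset _) := by
    rintro ⟨⟨a, b, c⟩, ⟨i, j, k⟩⟩ h1 ⟨⟨a', b', c'⟩, ⟨i', j', k'⟩⟩ h2 heq
    simp only [B, coe_product, Set.mem_prod, Finset.mem_coe, mem_range] at h1 h2
    have e0 := DFunLike.congr_fun heq 0
    have e1 := DFunLike.congr_fun heq 1
    have e2 := DFunLike.congr_fun heq 2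
    simp [g] at e0 e1 e2
    have key : ∀ x x' y y' P : ℕ, x < P → x' < P → x + P * y = x' + P * y' → x = x' ∧ y = y' := by
      intro x x' y y' P hx hx' he
      have h1 : (x + P * y) % P = x := by
        rw [Nat.add_mul_mod_self_left, Nat.mod_eq_of_lt hx]
      have h2 : (x' + P * y') % P = x' := by
        rw [Nat.add_mul_mod_self_left, Nat.mod_eq_of_lt hx']
      have h3 : x = x' := by rw [← h1, he, h2]
      subst h3
      refine ⟨rfl, ?_⟩
      have h4 : P * y = P * y' := by omega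
      exact Nat.eq_of_mul_eq_mul_left (by omega) h4
    obtain ⟨rfl, rfl⟩ := key _ _ _ _ _ h1.1.1 h2.1.1 e0
    obtain ⟨rfl, rfl⟩ := key _ _ _ _ _ h1.1.2.1 h2.1.2.1 e1
    obtain ⟨rfl, rfl⟩ := key _ _ _ _ _ h1.1.2.2 h2.1.2.2 e2
    rfl
  have hcard : ((B ×ˢ tri (n - 2)).image g).card = p 0 * p 1 * p 2 * (tri (n - 2)).card := by
    rw [card_image_of_injOn hinj, card_product]
    simp only [B, card_product, card_range]
    ring
  rw [← hcard]
  apply card_le_length
  intro γ hγ
  apply not_mem_Ex_V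
  rw [mem_image] at hγ
  obtain ⟨⟨⟨a, b, c⟩, ⟨i, j, k⟩⟩, hq, rfl⟩ := hγ
  simp only [B, mem_product, mem_range] at hq
  obtain ⟨⟨ha, hb, hc⟩, hk⟩ := hq
  rw [mem_tri] at hk
  simp only at hk
  simp only [wdeg, g, Finsupp.equivFunOnFinite_symm_apply_apply, Matrix.cons_val_zero,
    Matrix.cons_val_one, Matrix.cons_val]
  have hw : ∀ i, 0 < w i := fun i => Nat.pos_of_ne_zero (fun h0 => by
    have := hp i; rw [h0, zero_mul] at this; omega)
  have h0 := hp 0
  have h1 := hp 1
  have h2 := hp 2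
  have a1 : w 0 * a + w 0 ≤ h := by rw [← h0]; nlinarith [hw 0]
  have b1 : w 1 * b + w 1 ≤ h := by rw [← h1]; nlinarith [hw 1]
  have c1 : w 2 * c + w 2 ≤ h := by rw [← h2]; nlinarith [hw 2]
  have hn : n = (n - 2) + 2 := by omega
  have e : w 0 * (a + p 0 * i) + w 1 * (b + p 1 * j) + w 2 * (c + p 2 * k) =
      (w 0 * a + w 1 * b + w 2 * c) + h * (i + j + k) := by
    rw [mul_add, mul_add, mul_add, ← mul_assoc, ← mul_assoc, ← mul_assoc, h0, h1, h2]
    ring
  rw [e]
  have hk' : i + j + k + 3 ≤ n := by omega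
  have := hw 0
  calc (w 0 * a + w 1 * b + w 2 * c) + h * (i + j + k) < 3 * h + h * (i + j + k) := by omega
    _ = h * (i + j + k + 3) := by ring
    _ ≤ h * n := Nat.mul_le_mul_left _ hk'

/-- the ideal generated by the variables -/
noncomputable abbrev mS (K : Type) [Field K] : Ideal (MvPowerSeries (Fin 3) K) := Ideal.span (Set.range X)

/-- the standard weights -/
abbrev w1 : Fin 3 → ℕ := fun _ => 1

theorem exists_sum_X {N : ℕ} {f : MvPowerSeries (Fin 3) K}
    (hf : f ∈ (V w1 (N + 1) : Ideal (MvPowerSeries (Fin 3) K))) :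
    ∃ g : Fin 3 → MvPowerSeries (Fin 3) K, (∀ i, g i ∈ (V w1 N : Ideal (MvPowerSeries (Fin 3) K))) ∧
      f = X 0 * g 0 + X 1 * g 1 + X 2 * g 2 := by
  classical
  let s : Fin 3 → (Fin 3 →₀ ℕ) := fun i => Finsupp.single i 1
  let P : Fin 3 → (Fin 3 →₀ ℕ) → Prop := ![fun _ => True, fun a => a 0 = 0,
    fun a => a 0 = 0 ∧ a 1 = 0]
  let g : Fin 3 → MvPowerSeries (Fin 3) K := fun i a => if P i a then coeff (a + s i) f else 0
  have hg : ∀ i a, coeff a (g i) = if P i a then coeff (a + s i) f else 0 := fun i a => rfl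
  refine ⟨g, ?_, ?_⟩
  · intro i a ha
    rw [hg]
    split_ifs
    · apply hf
      rw [wdeg_add]
      have : wdeg w1 (s i) = 1 := by
        fin_cases i <;> simp [wdeg, s]
      omega
    · rfl
  · ext a
    rw [map_add, map_add]
    have hX : ∀ i, coeff a (X i * g i) = if 1 ≤ a i then coeff (a - s i) (g i) else 0 := by
      intro i
      rw [X_def, coeff_monomial_mul]
      simp only [one_mul, Finsupp.single_le_iff]
      rfl
    rw [hX, hX, hX]
    have hback : ∀ i, 1 ≤ a i → a - s i + s i = a := by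
      intro i hi
      apply tsub_add_cancel_of_le
      simpa [s] using hi
    by_cases h0 : 1 ≤ a 0
    · rw [if_pos h0]
      have e1 : (if 1 ≤ a 1 then coeff (a - s 1) (g 1) else 0) = 0 := by
        split_ifs with h1
        · rw [hg, if_neg]
          simp only [P, s, Matrix.cons_val_one, Matrix.cons_val_zero, Finsupp.coe_tsub,
            Pi.sub_apply]
          simp
          omega
        · rfl
      have e2 : (if 1 ≤ a 2 then coeff (a - s 2) (g 2) else 0) = 0 := by
        split_ifs with h1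
        · rw [hg, if_neg]
          simp only [P, s, Matrix.cons_val, Finsupp.coe_tsub, Pi.sub_apply]
          simp
          omega
        · rfl
      rw [e1, e2, hg, if_pos (by simp [P]), hback 0 h0, add_zero, add_zero]
    · rw [if_neg h0, zero_add]
      have ha0 : a 0 = 0 := by omega
      by_cases h1 : 1 ≤ a 1
      · rw [if_pos h1]
        have e2 : (if 1 ≤ a 2 then coeff (a - s 2) (g 2) else 0) = 0 := by
          split_ifs with h2
          · rw [hg, if_neg]
            simp only [P, s, Matrix.cons_val, Finsupp.coe_tsub, Pi.sub_apply]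
            simp
            omega
          · rfl
        rw [e2, hg, if_pos, hback 1 h1, add_zero]
        simp only [P, s, Matrix.cons_val_one, Matrix.cons_val_zero, Finsupp.coe_tsub,
            Pi.sub_apply]
        simp [ha0]
      · rw [if_neg h1, zero_add]
        have ha1 : a 1 = 0 := by omega
        by_cases h2 : 1 ≤ a 2
        · rw [if_pos h2, hg, if_pos, hback 2 h2]
          simp only [P, s, Matrix.cons_val, Finsupp.coe_tsub, Pi.sub_apply]
          simp [ha0, ha1]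
        · rw [if_neg h2]
          apply hf
          simp [wdeg]
          omega

theorem V_le_pow (N : ℕ) : (V w1 N : Ideal (MvPowerSeries (Fin 3) K)) ≤ mS K ^ N := by
  induction N with
  | zero => simp
  | succ N ih =>
    intro f hf
    obtain ⟨g, hg, rfl⟩ := exists_sum_X hf
    rw [pow_succ']
    have hX : ∀ i, (X i : MvPowerSeries (Fin 3) K) ∈ mS K := fun i =>
      Ideal.subset_span ⟨i, rfl⟩
    exact add_mem (add_mem (Ideal.mul_mem_mul (hX 0) (ih (hg 0)))
      (Ideal.mul_mem_mul (hX 1) (ih (hg 1)))) (Ideal.mul_mem_mul (hX 2) (ih (hg 2)))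

theorem mS_le_V : mS K ≤ V w1 1 := by
  rw [Ideal.span_le]
  rintro _ ⟨i, rfl⟩
  rw [X_def]
  apply monomial_mem_V
  fin_cases i <;> simp [wdeg]

theorem mS_pow_eq (N : ℕ) : mS K ^ N = V w1 N := by
  apply le_antisymm _ (V_le_pow N)
  have := pow_le_V (mS_le_V (K := K)) N
  simpa using this

theorem mS_eq : mS K = V w1 1 := by
  simpa using mS_pow_eq (K := K) 1

/-- ideals containing a power of the maximal ideal -/
theorem low_of_le {J : Ideal (MvPowerSeries (Fin 3) K)} {N : ℕ} (h : mS K ^ N ≤ J) :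
    ∀ f : MvPowerSeries (Fin 3) K, (∀ a ∈ lowDeg N, coeff a f = 0) → f ∈ J := by
  intro f hf
  apply h
  rw [mS_pow_eq]
  intro a ha
  apply hf
  rw [mem_lowDeg]
  simpa [wdeg, deg] using ha

end Pool.Agent.Lib.MP_69a698_al
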