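import Pool.Agent.Lib.MP_69a698_al.Mon

/-! # The glued rings -/

open MvPowerSeries Finset IsLocalRing

namespace Pool.Agent.Lib.MP_69a698_al

abbrev S := MvPowerSeries (Fin 3) ℂ

/-- Gluing data: ideals `c j` and a space `U` of linear parts. -/
structure Dat (k : Type) [Field k] [Algebra k ℂ] (ι : Type) where
  c : ι → Ideal S
  U : Submodule k (ι → S)
  hc4 : ∀ j, mS ℂ ^ 4 ≤ c j
  hc1 : ∀ j, c j ≤ mS ℂ
  hU1 : ∀ v ∈ U, ∀ j, v j ∈ mS ℂ
  hU2 : ∀ v ∈ U, ∀ w ∈ U, ∀ j, v j * w j ∈ c j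

variable {k : Type} [Field k] [Algebra k ℂ] {ι : Type} (D : Dat k ι)

/-- the subalgebra `k + U + ∏ c j` -/
def Dat.A : Subalgebra k (ι → S) where
  carrier := {f | ∃ l : k, ∃ v ∈ D.U, ∀ j, f j - algebraMap k S l - v j ∈ D.c j}
  add_mem' := by
    rintro f g ⟨l, v, hv, h⟩ ⟨l', v', hv', h'⟩
    refine ⟨l + l', v + v', add_mem hv hv', fun j => ?_⟩
    have := add_mem (h j) (h' j)
    rw [map_add]
    convert this using 1
    simp only [Pi.add_apply]
    ring
  mul_mem' := by
    rintro f g ⟨l, v, hv, h⟩ ⟨l', v', hv', h'⟩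
    refine ⟨l * l', l • v' + l' • v, add_mem (D.U.smul_mem _ hv') (D.U.smul_mem _ hv),
      fun j => ?_⟩
    have h1 := Ideal.mul_mem_right (g j) _ (h j)
    have h2 := Ideal.mul_mem_left _ (algebraMap k S l + v j) (h' j)
    have h3 := D.hU2 v hv v' hv' j
    have := add_mem (add_mem h1 h2) h3
    convert this using 1
    simp only [Pi.add_apply, Pi.mul_apply, Pi.smul_apply]
    simp only [map_mul, Algebra.smul_def]
    ring
  algebraMap_mem' := by
    intro r
    refine ⟨r, 0, zero_mem _, fun j => ?_⟩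
    simp

variable {D}

theorem Dat.mem_A {f : ι → S} :
    f ∈ D.A ↔ ∃ l : k, ∃ v ∈ D.U, ∀ j, f j - algebraMap k S l - v j ∈ D.c j := Iff.rfl

theorem Dat.mem_of_c {f : ι → S} (h : ∀ j, f j ∈ D.c j) : f ∈ D.A :=
  ⟨0, 0, zero_mem _, fun j => by simpa using h j⟩

theorem Dat.mem_of_U {f : ι → S} (h : f ∈ D.U) : f ∈ D.A :=
  ⟨0, f, h, fun j => by simp⟩

theorem constantCoeff_of_mem {f : S} (h : f ∈ mS ℂ) : constantCoeff f = 0 := by
  rw [mS_eq] at h
  rw [← coeff_zero_eq_constantCoeff_apply]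
  apply h
  simp [wdeg]

theorem mem_mS_iff {f : S} : f ∈ mS ℂ ↔ constantCoeff f = 0 := by
  refine ⟨constantCoeff_of_mem, fun h => ?_⟩
  rw [mS_eq]
  intro a ha
  have : a = 0 := by
    ext i
    simp [wdeg] at ha
    fin_cases i <;> simp <;> omega
  rw [this, coeff_zero_eq_constantCoeff_apply, h]

theorem constantCoeff_algebraMap' (l : k) :
    constantCoeff (algebraMap k S l) = algebraMap k ℂ l := by
  rw [MvPowerSeries.algebraMap_apply, constantCoeff_C]

theorem Dat.constantCoeff_eq {f : ι → S} {l : k} {v : ι → S} (hv : v ∈ D.U) {j : ι}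
    (h : f j - algebraMap k S l - v j ∈ D.c j) : constantCoeff (f j) = algebraMap k ℂ l := by
  have h1 := constantCoeff_of_mem (D.hc1 j h)
  have h2 := constantCoeff_of_mem (D.hU1 v hv j)
  rw [map_sub, map_sub, h2, constantCoeff_algebraMap'] at h1
  simpa [sub_eq_zero] using h1

/-- the augmentation at the index `j` -/
noncomputable def Dat.ev (D : Dat k ι) (j : ι) : D.A →+* ℂ :=
  (constantCoeff (σ := Fin 3) (R := ℂ)).comp ((Pi.evalRingHom (fun _ : ι => S) j).comp
    (D.A.val : D.A →+* (ι → S)))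

theorem Dat.ev_apply (j : ι) (f : D.A) : D.ev j f = constantCoeff (f.1 j) := rfl

theorem Dat.isUnit_of {f : D.A} {j : ι} (h : D.ev j f ≠ 0) : IsUnit f := by
  obtain ⟨f, hf⟩ := f
  obtain ⟨l, v, hv, hl⟩ := id hf
  have hj : ∀ i, constantCoeff (f i) = algebraMap k ℂ l := fun i =>
    Dat.constantCoeff_eq hv (hl i)
  have hl0 : l ≠ 0 := by
    rintro rfl
    apply h
    rw [Dat.ev_apply]
    simp [hj]
  have hu : ∀ i, f i * (f i)⁻¹ = 1 := by
    intro i
    apply MvPowerSeries.mul_inv_cancel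
    rw [hj]
    simpa using hl0
  let h : ι → S := fun i => (f i)⁻¹
  have hmem : h ∈ D.A := by
    refine ⟨l⁻¹, -(l⁻¹ * l⁻¹) • v, D.U.smul_mem _ hv, fun i => ?_⟩
    -- h - g0 = h (1 - f g0)
    have key : h i - algebraMap k S l⁻¹ - (-(l⁻¹ * l⁻¹) • v) i =
        h i * ((f i - algebraMap k S l - v i) * (-(algebraMap k S l⁻¹) +
          algebraMap k S l⁻¹ * algebraMap k S l⁻¹ * v i) +
          algebraMap k S l⁻¹ * algebraMap k S l⁻¹ * (v i * v i)) := by
      have e1 : algebraMap k S l * algebraMap k S l⁻¹ = 1 := by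
        rw [← map_mul, mul_inv_cancel₀ hl0, map_one]
      have e2 : h i * f i = 1 := by rw [mul_comm]; exact hu i
      simp only [Pi.smul_apply, Algebra.smul_def, map_neg, map_mul]
      linear_combination (-algebraMap k S l⁻¹ + algebraMap k S l⁻¹ * algebraMap k S l⁻¹ * v i) *
        (-e2) + (-h i + h i * v i * algebraMap k S l⁻¹) * e1 
    rw [key]
    apply Ideal.mul_mem_left
    apply add_mem
    · exact Ideal.mul_mem_right _ _ (hl i)
    · exact Ideal.mul_mem_left _ _ (D.hU2 v hv v hv i)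
  refine IsUnit.of_mul_eq_one ⟨h, hmem⟩ ?_
  apply Subtype.ext
  funext i
  exact hu i

theorem Dat.isUnit_iff {f : D.A} (j : ι) : IsUnit f ↔ D.ev j f ≠ 0 := by
  refine ⟨fun h => (h.map (D.ev j)).ne_zero, Dat.isUnit_of⟩

theorem Dat.isLocalHom_ev (j : ι) : IsLocalHom (D.ev j) where
  map_nonunit := fun f hf => Dat.isUnit_of (j := j) hf.ne_zero

theorem Dat.isLocalRing [h : Nonempty ι] : IsLocalRing D.A := by
  obtain ⟨j⟩ := h
  have := Dat.isLocalHom_ev (D := D) j
  exact (D.ev j).domain_isLocalRing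

theorem Dat.mem_maximalIdeal [IsLocalRing D.A] {f : D.A} (j : ι) :
    f ∈ maximalIdeal D.A ↔ constantCoeff (f.1 j) = 0 := by
  rw [IsLocalRing.mem_maximalIdeal, mem_nonunits_iff, Dat.isUnit_iff j, not_not, Dat.ev_apply]

theorem Dat.mem_maximalIdeal' [IsLocalRing D.A] {f : D.A} (hf : f ∈ maximalIdeal D.A) (j : ι) :
    f.1 j ∈ mS ℂ := by
  rw [mem_mS_iff, ← Dat.mem_maximalIdeal j]
  exact hf

/-- the projection to the `j`-th component -/
noncomputable def Dat.pr (D : Dat k ι) (j : ι) : D.A →+* S :=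
  (Pi.evalRingHom (fun _ : ι => S) j).comp (D.A.val : D.A →+* (ι → S))

theorem Dat.pr_apply (j : ι) (f : D.A) : D.pr j f = f.1 j := rfl

theorem Dat.map_maximalIdeal_le [IsLocalRing D.A] (j : ι) :
    (maximalIdeal D.A).map (D.pr j) ≤ mS ℂ := by
  rw [Ideal.map_le_iff_le_comap]
  intro f hf
  exact Dat.mem_maximalIdeal' hf j

theorem Dat.pow_mem [IsLocalRing D.A] {f : D.A} {n : ℕ} (hf : f ∈ maximalIdeal D.A ^ n) (j : ι) :
    f.1 j ∈ mS ℂ ^ n := by
  have h1 : D.pr j f ∈ ((maximalIdeal D.A) ^ n).map (D.pr j) := Ideal.mem_map_of_mem _ hf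
  rw [Ideal.map_pow] at h1
  exact Ideal.pow_right_mono (Dat.map_maximalIdeal_le j) n h1

/-- the ideal `∏ c j` of `A` -/
def Dat.C (D : Dat k ι) : Ideal D.A where
  carrier := {f | ∀ j, f.1 j ∈ D.c j}
  add_mem' := fun hf hg j => add_mem (hf j) (hg j)
  zero_mem' := fun j => zero_mem _
  smul_mem' := fun c f hf j => Ideal.mul_mem_left _ _ (hf j)

theorem Dat.mem_C {f : D.A} : f ∈ D.C ↔ ∀ j, f.1 j ∈ D.c j := Iff.rfl

/-- For an ideal `I` of `A`, the elements of `∏ (c j)^n · J_j^N`-type are in `I`; basic version: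
if every component lies in the extension of `I` times `c j`, then the element lies in `I`. -/
theorem Dat.mem_of_mul [Fintype ι] (I : Ideal D.A) {f : D.A}
    (hf : ∀ j, f.1 j ∈ I.map (D.pr j) * D.c j) : f ∈ I := by
  classical
  have key : ∀ j (x : S), x ∈ I.map (D.pr j) * D.c j →
      ∃ y ∈ I, y.1 = Pi.single j x := by
    intro j x hx
    refine Submodule.mul_induction_on hx ?_ ?_
    · intro m hm n hn
      refine Submodule.span_induction (p := fun m _ => ∀ n ∈ D.c j, ∃ y ∈ I,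
        y.1 = Pi.single j (m * n)) ?_ ?_ ?_ ?_ hm n hn
      · rintro _ ⟨g, hg, rfl⟩ n hn
        have hmem : (Pi.single j n : ι → S) ∈ D.A := Dat.mem_of_c (fun i => by
          by_cases h : i = j
          · subst h; simpa using hn
          · simp [Pi.single_eq_of_ne h])
        refine ⟨g * ⟨Pi.single j n, hmem⟩, I.mul_mem_right _ hg, ?_⟩
        funext i
        by_cases h : i = j
        · subst h
          simp [Dat.pr_apply]
        · simp [Pi.single_eq_of_ne h]
      · intro n _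
        exact ⟨0, zero_mem _, by simp⟩
      · intro x y _ _ hx hy n hn
        obtain ⟨a, ha, ha'⟩ := hx n hn
        obtain ⟨b, hb, hb'⟩ := hy n hn
        refine ⟨a + b, add_mem ha hb, ?_⟩
        rw [add_mul, Pi.single_add, ← ha', ← hb']
        rfl
      · intro s x _ hx n hn
        obtain ⟨a, ha, ha'⟩ := hx (s * n) (Ideal.mul_mem_left _ _ hn)
        refine ⟨a, ha, ?_⟩
        rw [ha', smul_eq_mul]
        congr 1
        ring
    · rintro x y ⟨a, ha, ha'⟩ ⟨b, hb, hb'⟩
      refine ⟨a + b, add_mem ha hb, ?_⟩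
      rw [Pi.single_add, ← ha', ← hb']
      rfl
  choose y hy hy' using fun j => key j (f.1 j) (hf j)
  have : f = ∑ j, y j := by
    apply Subtype.ext
    rw [AddSubmonoidClass.coe_finsetSum]
    simp only [hy']
    exact (Finset.univ_sum_single f.1).symm
  rw [this]
  exact sum_mem (fun j _ => hy j)

end Pool.Agent.Lib.MP_69a698_al
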