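import Pool.Agent.Lib.MP_69a698_al.Covers
import Pool.Agent.Lib.MP_69a698_al.Lin

/-! # Comparison of an ideal of the glued ring with its extensions to the components -/

open MvPowerSeries Finset IsLocalRing

namespace Pool.Agent.Lib.MP_69a698_al

variable {ι : Type} {D : Dat ℝ ι}

/-- `R`-linear projection (over the coefficient field) -/
noncomputable def mkL (k : Type) [Field k] {A : Type} [CommRing A] [Algebra k A] (I : Ideal A) :
    A →ₗ[k] A ⧸ I := (Ideal.Quotient.mkₐ k I).toLinearMap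

theorem mkL_eq_zero {k : Type} [Field k] {A : Type} [CommRing A] [Algebra k A] {I : Ideal A}
    {x : A} : mkL k I x = 0 ↔ x ∈ I := Ideal.Quotient.eq_zero_iff_mem

theorem mkL_surj {k : Type} [Field k] {A : Type} [CommRing A] [Algebra k A] {I : Ideal A} :
    Function.Surjective (mkL k I) := Ideal.Quotient.mk_surjective

/-- length of `R/Iⁿ` is bounded by the sum of the lengths of `S/J_jⁿ⁺⁴` -/
theorem length_quot_pow_le [Fintype ι] [IsLocalRing D.A] (I : Ideal D.A)
    (hI : I ≤ maximalIdeal D.A) (n : ℕ) :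
    Module.length ℝ (D.A ⧸ I ^ n) ≤
      ∑ j, Module.length ℝ (S ⧸ (I.map (D.pr j)) ^ (n + 4)) := by
  rw [← Module.length_pi_of_fintype]
  let f : D.A →ₗ[ℝ] (∀ j, S ⧸ (I.map (D.pr j)) ^ (n + 4)) :=
    LinearMap.pi (fun j => (mkL ℝ ((I.map (D.pr j)) ^ (n + 4))).comp
      ((LinearMap.proj j).comp D.A.val.toLinearMap))
  apply length_le_of_ker_le f (mkL ℝ (I ^ n)) mkL_surj
  intro x hx
  rw [LinearMap.mem_ker] at hx ⊢
  rw [mkL_eq_zero]
  have hx' : ∀ j, x.1 j ∈ (I.map (D.pr j)) ^ (n + 4) := by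
    intro j
    have := congrFun hx j
    exact (mkL_eq_zero (k := ℝ)).mp this
  apply Dat.mem_of_mul
  intro j
  have h1 := hx' j
  rw [pow_add] at h1
  rw [Ideal.map_pow]
  refine Ideal.mul_mono le_rfl ?_ h1
  refine le_trans ?_ (D.hc4 j)
  apply Ideal.pow_right_mono
  exact (Ideal.map_mono hI).trans (Dat.map_maximalIdeal_le j)

/-- the defect at the component `j` -/
noncomputable def defect (I : Ideal D.A) (j : ι) : Submodule ℂ (S ⧸ I.map (D.pr j)) :=
  (LinearMap.ker (mkL ℂ (I.map (D.pr j) ⊔ D.c j))).map (mkL ℂ (I.map (D.pr j)))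

theorem length_component (I : Ideal D.A) (j : ι) :
    Module.length ℂ (S ⧸ I.map (D.pr j)) =
      Module.length ℂ (defect I j) + Module.length ℂ (S ⧸ (I.map (D.pr j) ⊔ D.c j)) := by
  apply length_two _ _ mkL_surj mkL_surj
  intro x hx
  rw [LinearMap.mem_ker, mkL_eq_zero] at hx ⊢
  exact Ideal.mem_sup_left hx

theorem c_le_of_defect (I : Ideal D.A) (j : ι) (h : Module.length ℂ (defect I j) = 0) :
    D.c j ≤ I.map (D.pr j) := by
  intro x hx
  have h1 : Subsingleton (defect I j) := Module.length_eq_zero_iff.mp h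
  have h2 : mkL ℂ (I.map (D.pr j)) x ∈ defect I j := by
    refine ⟨x, ?_, rfl⟩
    show x ∈ LinearMap.ker _
    rw [LinearMap.mem_ker, mkL_eq_zero]
    exact Ideal.mem_sup_right hx
  have h3 : (⟨_, h2⟩ : defect I j) = 0 := Subsingleton.elim _ _
  have h4 := congrArg Subtype.val h3
  exact mkL_eq_zero.mp h4

/-- lower bound for the length of `R/I` -/
theorem le_length_quot [Fintype ι] (I : Ideal D.A) :
    Module.length ℝ (D.A ⧸ (I ⊔ D.C)) + ∑ j, 2 * Module.length ℂ (defect I j) ≤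
      Module.length ℝ (D.A ⧸ I) := by
  have hker : LinearMap.ker (mkL ℝ I) ≤ LinearMap.ker (mkL ℝ (I ⊔ D.C)) := by
    intro x hx
    rw [LinearMap.mem_ker, mkL_eq_zero] at hx ⊢
    exact Ideal.mem_sup_left hx
  rw [length_two (mkL ℝ I) (mkL ℝ (I ⊔ D.C)) mkL_surj mkL_surj hker, add_comm]
  gcongr
  have h1 : ∑ j, 2 * Module.length ℂ (defect I j) = Module.length ℝ (∀ j, defect I j) := by
    rw [Module.length_pi_of_fintype]
    apply Finset.sum_congr rfl
    intro j _
    exact (length_real_eq (defect I j)).symm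
  rw [h1]
  let M' : Submodule ℝ D.A := D.C.restrictScalars ℝ
  have hM : ∀ x : M', ∀ j, x.1.1 j ∈ D.c j := fun x => x.2
  let f : M' →ₗ[ℝ] (LinearMap.ker (mkL ℝ (I ⊔ D.C))).map (mkL ℝ I) :=
    ((mkL ℝ I).comp M'.subtype).codRestrict _ (fun x => by
      refine ⟨x.1, ?_, rfl⟩
      show x.1 ∈ LinearMap.ker _
      rw [LinearMap.mem_ker, mkL_eq_zero]
      exact Ideal.mem_sup_right x.2)
  have hd : ∀ (x : M') (j : ι), mkL ℝ (I.map (D.pr j)) (x.1.1 j) ∈
      (defect I j).restrictScalars ℝ := by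
    intro x j
    refine ⟨x.1.1 j, ?_, rfl⟩
    show x.1.1 j ∈ LinearMap.ker _
    rw [LinearMap.mem_ker, mkL_eq_zero]
    exact Ideal.mem_sup_right (hM x j)
  let g : M' →ₗ[ℝ] (∀ j, defect I j) := LinearMap.pi (fun j =>
    ((mkL ℝ (I.map (D.pr j))).comp ((LinearMap.proj j).comp
      (D.A.val.toLinearMap.comp M'.subtype))).codRestrict
        ((defect I j).restrictScalars ℝ) (fun x => hd x j))
  have hg : ∀ x j, (g x j).1 = mkL ℝ (I.map (D.pr j)) (x.1.1 j) := fun x j => rfl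
  apply length_le_of_ker_le (k := ℝ) (M := M') (Q := ∀ j, defect I j) f g
  · intro y
    have hy : ∀ j, ∃ b ∈ D.c j, (y j).1 = mkL ℝ (I.map (D.pr j)) b := by
      intro j
      obtain ⟨x, hx, hxy⟩ := (y j).2
      have hx' : x ∈ LinearMap.ker (mkL ℂ (I.map (D.pr j) ⊔ D.c j)) := hx
      rw [LinearMap.mem_ker, mkL_eq_zero, Submodule.mem_sup] at hx'
      obtain ⟨a, ha, b, hb, rfl⟩ := hx'
      refine ⟨b, hb, ?_⟩
      rw [← hxy, map_add, mkL_eq_zero.mpr ha, zero_add]
      rfl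
    choose b hb hb' using hy
    refine ⟨⟨⟨b, Dat.mem_of_c hb⟩, hb⟩, ?_⟩
    funext j
    apply Subtype.ext
    rw [hg, hb']
  · intro x hx
    rw [LinearMap.mem_ker] at hx ⊢
    have hxI : x.1 ∈ I := by
      have := congrArg Subtype.val hx
      exact (mkL_eq_zero (k := ℝ)).mp this
    funext j
    apply Subtype.ext
    rw [hg]
    exact mkL_eq_zero.mpr (Ideal.mem_map_of_mem (D.pr j) hxI)

end Pool.Agent.Lib.MP_69a698_al
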